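import Mathlib
import Pool.Agent.N208.LC.Stm

set_option autoImplicit false

/-!
# SW: products of abelian surfaces with real endomorphisms: statements of the packages

Everything is complex linear algebra. `L` is always a subspace of `End W` closed under brackets.

Let `V` be a symplectic space which is the orthogonal direct sum of subspaces `W i` of dimension two or
four, which are irreducible and pairwise not isomorphic under a Lie algebra `L` of skew operators.
Then all alternating forms (of any degree) which are killed by `L` are killed by all skew operators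
preserving all `W i` (`S_CORE`).
-/

open Module

namespace Pool.Agent.P8H30.SW

open Pool.Agent.N208.LC

section

variable {W : Type} [AddCommGroup W] [Module ℂ W]

/-- the operator `x` is skew for the form `ω` -/
def Skew (ω : W →ₗ[ℂ] W →ₗ[ℂ] ℂ) (x : Module.End ℂ W) : Prop :=
  ∀ u v, ω (x u) v + ω u (x v) = 0

/-- `ω` is a symplectic form -/
structure Sym (ω : W →ₗ[ℂ] W →ₗ[ℂ] ℂ) : Prop where
  alt : ∀ v, ω v v = 0
  nd : ∀ u, (∀ v, ω u v = 0) → u = 0

/-- `L` is closed under brackets -/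
def LieC (L : Submodule ℂ (Module.End ℂ W)) : Prop := ∀ x ∈ L, ∀ y ∈ L, x * y - y * x ∈ L

/-- `W` is irreducible under `L` (or zero) -/
def Irr (L : Submodule ℂ (Module.End ℂ W)) : Prop :=
  ∀ U : Submodule ℂ W, (∀ x ∈ L, ∀ u ∈ U, x u ∈ U) → U = ⊥ ∨ U = ⊤

/-- triples satisfying the relations of `sl(2)` -/
structure Trip (h e f : Module.End ℂ W) : Prop where
  he : h * e - e * h = (2 : ℂ) • e
  hf : h * f - f * h = -((2 : ℂ) • f)
  ef : e * f - f * e = h

/-- standard bases of the irreducible representation of `sl(2)` of dimension `n + 1` -/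
structure Std (n : ℕ) (h e f : Module.End ℂ W) (b : Basis (Fin (n + 1)) ℂ W) : Prop where
  hb : ∀ k : Fin (n + 1), h (b k) = ((n : ℂ) - 2 * ((k : ℕ) : ℂ)) • b k
  fb : ∀ k : Fin n, f (b k.castSucc) = b k.succ
  fl : f (b (Fin.last n)) = 0
  eb : ∀ k : Fin n, e (b k.succ) = ((((k : ℕ) : ℂ) + 1) * ((n : ℂ) - ((k : ℕ) : ℂ))) • b k.castSucc
  e0 : e (b 0) = 0

/-- symplectic bases of a space of dimension four -/
structure Dar (ω : W →ₗ[ℂ] W →ₗ[ℂ] ℂ) (b : Basis (Fin 4) ℂ W) : Prop where
  w01 : ω (b 0) (b 1) = 1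
  w23 : ω (b 2) (b 3) = 1
  w02 : ω (b 0) (b 2) = 0
  w03 : ω (b 0) (b 3) = 0
  w12 : ω (b 1) (b 2) = 0
  w13 : ω (b 1) (b 3) = 0

/-- a triple acting on the plane spanned by `b 0, b 1` and by zero on `b 2, b 3` -/
structure Ty1 (h e f : Module.End ℂ W) (b : Basis (Fin 4) ℂ W) : Prop where
  h0 : h (b 0) = b 0
  h1 : h (b 1) = -b 1
  h2 : h (b 2) = 0
  h3 : h (b 3) = 0
  e0 : e (b 0) = 0
  e1 : e (b 1) = b 0
  e2 : e (b 2) = 0
  e3 : e (b 3) = 0
  f0 : f (b 0) = b 1
  f1 : f (b 1) = 0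
  f2 : f (b 2) = 0
  f3 : f (b 3) = 0

/-- a triple acting on the planes spanned by `b 0, b 1` and by `b 2, b 3` -/
structure Ty2 (h e f : Module.End ℂ W) (b : Basis (Fin 4) ℂ W) : Prop where
  h0 : h (b 0) = b 0
  h1 : h (b 1) = -b 1
  h2 : h (b 2) = b 2
  h3 : h (b 3) = -b 3
  e0 : e (b 0) = 0
  e1 : e (b 1) = b 0
  e2 : e (b 2) = 0
  e3 : e (b 3) = b 2
  f0 : f (b 0) = b 1
  f1 : f (b 1) = 0
  f2 : f (b 2) = b 3
  f3 : f (b 3) = 0

/-- `L` is simple: it has no proper nonzero ideal, and it is spanned by brackets -/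
def Simp (L : Submodule ℂ (Module.End ℂ W)) : Prop :=
  (∀ I : Submodule ℂ (Module.End ℂ W), I ≤ L → (∀ x ∈ L, ∀ y ∈ I, x * y - y * x ∈ I) →
    I = ⊥ ∨ I = L) ∧
  L ≤ Submodule.span ℂ {z | ∃ x ∈ L, ∃ y ∈ L, z = x * y - y * x}

/-- the symplectic Lie algebra -/
def SP (ω : W →ₗ[ℂ] W →ₗ[ℂ] ℂ) : Submodule ℂ (Module.End ℂ W) where
  carrier := {x | Skew ω x}
  zero_mem' := fun u v => by simp
  add_mem' := by
    intro x y hx hy u v
    have h1 := hx u v
    have h2 := hy u v
    simp only [LinearMap.add_apply, map_add]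
    linear_combination h1 + h2
  smul_mem' := by
    intro c x hx u v
    have h1 := hx u v
    simp only [LinearMap.smul_apply, map_smul, smul_eq_mul]
    linear_combination c * h1

end

/-- **SW/TRI.** Existence of a triple.

Proof: `L`, as a `LieSubalgebra ℂ (Module.End ℂ W)`, acts faithfully and irreducibly on `W`, and the
traces are zero, so it has trivial radical
(`LieAlgebra.hasTrivialRadical_of_isIrreducible_of_isFaithful`), so it is Killing
(`LieAlgebra.HasTrivialRadical.instIsKilling`); it is not zero because `2 ≤ finrank W`. Take a Cartan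
subalgebra `H`; there is a nonzero root (otherwise `L = H` would be abelian and its own centre), and
`LieAlgebra.IsKilling.exists_isSl2Triple_of_weight_isNonZero` gives the triple. -/
def S_TRI : Prop := ∀ (W : Type) [AddCommGroup W] [Module ℂ W] [FiniteDimensional ℂ W]
  (L : Submodule ℂ (Module.End ℂ W)), LieC L → Irr L → (∀ x ∈ L, LinearMap.trace ℂ W x = 0) →
  2 ≤ finrank ℂ W → ∃ h ∈ L, ∃ e ∈ L, ∃ f ∈ L, Trip h e f ∧ e ≠ 0

/-- **SW/STD.** Standard bases of irreducible representations of `sl(2)`.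

Proof: an eigenvector of `h`, moved by `e` until it is killed, is a primitive vector `v`; its weight is
a natural number `m` (`IsSl2Triple.HasPrimitiveVectorWith.exists_nat`); the vectors `f ^ k v`,
`k ≤ m`, have different eigenvalues for `h`, span a stable subspace, so they are a basis, and
`m = n`. -/
def S_STD : Prop := ∀ (n : ℕ) (W : Type) [AddCommGroup W] [Module ℂ W] [FiniteDimensional ℂ W]
  (h e f : Module.End ℂ W), Trip h e f → Irr (Submodule.span ℂ {h, e, f}) →
  finrank ℂ W = n + 1 → ∃ b : Basis (Fin (n + 1)) ℂ W, Std n h e f b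

/-- **SW/TYP.** The three types of triples of skew operators on a symplectic space of dimension four.

Proof: let `v` be a primitive vector (`h v = m v`, `e v = 0`, `v ≠ 0`) with `m` maximal; `v, f v, ...,
f ^ m v` have different eigenvalues for `h`, so `m ≤ 3`, and they span a stable `U` of dimension
`m + 1`.
* `m = 3`: `U = W`.
* `m = 2`: `U` is irreducible of dimension three; `U ⊓ U^⊥` is stable, and it is not zero because an
  alternating form in dimension three is degenerate, so `U ≤ U^⊥` and `3 ≤ 4 - 3`, a contradiction.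
* `m = 0`: all eigenvalues of `h` are zero (every eigenvalue is a weight of a primitive vector minus
  an even number; use the symmetry of the eigenvalues), `h` is nilpotent, `[h, e] = 2 e` gives
  `e = 0`, a contradiction.
* `m = 1`: the eigenvalues of `h` are in `{1, 0, -1}`. On the generalized eigenspaces `W_1, W_-1`:
  `e W_1 = 0`, `f W_-1 = 0`, `h = e f` on `W_1` and `h = -f e` on `W_-1`; from `h e - e h = 2 e` on
  `W_-1` get `e f e = e`, so `h ^ 2 = h` and `h = 1` on `W_1`. `s(u, v) = ω (u, f v)` is a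
  nondegenerate symmetric form on `W_1`, take an orthonormal basis `m_i` (of one or two elements) for
  it; the planes spanned by `m_i, f m_i`. If `dim W_1 = 1` then `W_0` has dimension two and `e, f, h`
  are zero on it (`e W_0 ≤ W_2 = 0`). -/
def S_TYP : Prop := ∀ (W : Type) [AddCommGroup W] [Module ℂ W] [FiniteDimensional ℂ W]
  (ω : W →ₗ[ℂ] W →ₗ[ℂ] ℂ) (h e f : Module.End ℂ W), Sym ω → finrank ℂ W = 4 → Trip h e f →
  Skew ω h → Skew ω e → Skew ω f → e ≠ 0 →
  (∃ b : Basis (Fin 4) ℂ W, Std 3 h e f b) ∨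
  (∃ b : Basis (Fin 4) ℂ W, Dar ω b ∧ Ty1 h e f b) ∨
  (∃ b : Basis (Fin 4) ℂ W, Dar ω b ∧ Ty2 h e f b)

/-- **SW/C3.** A Lie algebra of skew operators in dimension four containing a principal triple.

Proof: `b 0, ..., b 3` have weights `3, 1, -1, -3`; `ω (b 0, b 3) = c ≠ 0`, `ω (b 1, b 2) = -c`, all
other products of weights with nonzero sum vanish. Under `ad h`, `SP ω` is the sum of weight spaces of
weights `6, 4, 2, 2, 0, 0, -2, -2, -4, -6`: it is `span {h, e, f}` plus an irreducible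
representation `M` of dimension seven, the linear combinations of `x_6 : b 3 ↦ b 0` and its iterated
brackets with `f`. If `L` contains an element outside `span {h, e, f}`, take its weight components
(polynomials in `ad h`), subtract elements of the span: a nonzero weight vector `y ∈ M ∩ L`. Then some
`(ad e) ^ k y` is a nonzero multiple of `x_6`, and the `(ad f) ^ k x_6` give `M ≤ L`. -/
def S_C3 : Prop := ∀ (W : Type) [AddCommGroup W] [Module ℂ W]
  (ω : W →ₗ[ℂ] W →ₗ[ℂ] ℂ) (h e f : Module.End ℂ W) (b : Basis (Fin 4) ℂ W)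
  (L : Submodule ℂ (Module.End ℂ W)), Sym ω → Std 3 h e f b →
  LieC L → L ≤ SP ω → h ∈ L → e ∈ L → f ∈ L → L = SP ω ∨ L = Submodule.span ℂ {h, e, f}

/-- **SW/C1.** An irreducible Lie algebra containing an element of rank one is everything.

Proof: write `S(u, v) w = ω (u, w) v + ω (v, w) u`; these are skew and span `SP ω`. `ad h` has the
eigenvalues `2, 1, 0, -1, -2` on `SP ω`, with eigenspaces spanned by `S(b 0, b 0)`;
`S(b 0, b 2), S(b 0, b 3)`; `h, S(b 2, b 2), S(b 2, b 3), S(b 3, b 3)`; `S(b 1, b 2), S(b 1, b 3)`;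
`S(b 1, b 1)`. `L` is the sum of its weight spaces, and `L_1 = {S(b 0, k) : k ∈ M}`, and by brackets
with `f`, `L_-1 = {S(b 1, k) : k ∈ M}` for a subspace `M` of `K = span (b 2, b 3)`. If `M = 0` then
`span (b 0, b 1)` is stable. If `M = ⟨k⟩` is a line then `span (b 0, b 1, k)` is stable (elements
of `L_0` preserve `M`, by brackets with `L_1`). So `M = K`, and brackets of `S(b 0, k)` and
`S(b 1, k')` give all `S(k, k')`. -/
def S_C1 : Prop := ∀ (W : Type) [AddCommGroup W] [Module ℂ W]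
  (ω : W →ₗ[ℂ] W →ₗ[ℂ] ℂ) (h e f : Module.End ℂ W) (b : Basis (Fin 4) ℂ W)
  (L : Submodule ℂ (Module.End ℂ W)), Sym ω → Dar ω b → Ty1 h e f b →
  LieC L → L ≤ SP ω → Irr L → h ∈ L → e ∈ L → f ∈ L → L = SP ω

/-- **SW/C2.** An irreducible Lie algebra containing a triple with `h ^ 2 = 1` is everything.

Proof: identify `W` with `ℂ² ⊗ M`, `M = ℂ²` with the symmetric form for which the standard basis is
orthonormal (`b 0 = x ⊗ m0`, `b 1 = y ⊗ m0`, `b 2 = x ⊗ m1`, `b 3 = y ⊗ m1`). Then `SP ω` consists of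
the `h ⊗ a + e ⊗ a' + f ⊗ a'' + 1 ⊗ j` with symmetric matrices `a, a', a''` and a skew matrix `j`,
and `L` is the direct sum of `sl(2) ⊗ N` and `1 ⊗ N'` (`L` is stable under `ad h, ad e, ad f`), `N` a
subspace of the symmetric matrices containing `1`. `N = ⟨1⟩`: an eigenvector `m` of `j` gives the
stable subspace `ℂ² ⊗ m`. `N = ⟨1, a⟩` with `a` traceless: if `N' = 0` take an eigenvector `m` of
`a`; if `N' ≠ 0` then `[j, a] ∈ N` gives `[j, a] = c a`, so `a` is one of the two nilpotent
eigenvectors of `ad j`, and `m ∈ ker a` is an eigenvector of `j`: `ℂ² ⊗ m` is stable. `N` everything: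
brackets of `e ⊗ a` and `f ⊗ a'` give `1 ⊗ [a, a']`, so `L = SP ω`. -/
def S_C2 : Prop := ∀ (W : Type) [AddCommGroup W] [Module ℂ W]
  (ω : W →ₗ[ℂ] W →ₗ[ℂ] ℂ) (h e f : Module.End ℂ W) (b : Basis (Fin 4) ℂ W)
  (L : Submodule ℂ (Module.End ℂ W)), Sym ω → Dar ω b → Ty2 h e f b →
  LieC L → L ≤ SP ω → Irr L → h ∈ L → e ∈ L → f ∈ L → L = SP ω

/-- **SW/D2.** Dimension two (from TRI: `h, e, f` are linearly independent in `SP ω`, which has
dimension three; skew operators have trace zero). -/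
def S_D2 : Prop := ∀ (W : Type) [AddCommGroup W] [Module ℂ W] [FiniteDimensional ℂ W]
  (ω : W →ₗ[ℂ] W →ₗ[ℂ] ℂ) (L : Submodule ℂ (Module.End ℂ W)), Sym ω → finrank ℂ W = 2 →
  LieC L → L ≤ SP ω → Irr L → L = SP ω ∧ ∃ h e f, Trip h e f ∧ L = Submodule.span ℂ {h, e, f}

/-- **SW/D4.** Dimension four (from TRI, TYP, C1, C2, C3). -/
def S_D4 : Prop := ∀ (W : Type) [AddCommGroup W] [Module ℂ W] [FiniteDimensional ℂ W]
  (ω : W →ₗ[ℂ] W →ₗ[ℂ] ℂ) (L : Submodule ℂ (Module.End ℂ W)), Sym ω → finrank ℂ W = 4 →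
  LieC L → L ≤ SP ω → Irr L →
  L = SP ω ∨ ∃ h e f, Trip h e f ∧ L = Submodule.span ℂ {h, e, f}

/-- **SW/SI.** The symplectic Lie algebra is simple.

Proof: `S(u, v) w = ω (u, w) v + ω (v, w) u` are skew and span `SP ω` (expand `x` in a basis and its
dual basis); `[x, S(u, v)] = S(x u, v) + S(u, x v)` for skew `x`. If `0 ≠ x ∈ I`, there is `u` with
`ω (u, x u) ≠ 0` (polarization), and `[S(u, u), [S(u, u), x]]` is a nonzero multiple of `S(u, u)`. By
brackets with `S(a, b)` get `S(w, u) ∈ I` for all `w` and then `S(w, w') ∈ I` for all `w, w'`. The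
span of the brackets is an ideal, not zero if `W` is not zero. -/
def S_SI : Prop := ∀ (W : Type) [AddCommGroup W] [Module ℂ W] [FiniteDimensional ℂ W]
  (ω : W →ₗ[ℂ] W →ₗ[ℂ] ℂ), Sym ω → Simp (SP ω)

/-- **SW/SI2.** The span of a triple is simple (linear algebra with `ad h`, `ad e`, `ad f`). -/
def S_SI2 : Prop := ∀ (W : Type) [AddCommGroup W] [Module ℂ W] (h e f : Module.End ℂ W),
  Trip h e f → e ≠ 0 → Simp (Submodule.span ℂ {h, e, f})

/-- **SW/UNI.** The symplectic representation of dimension four of `sp(4)` is unique.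

`R` is the graph of an isomorphism `ψ` of `SP ω` with `SP ω'`.

Proof: take a symplectic basis `p1, q1, p2, q2` of `W`, and the two commuting triples
`(h_i, e_i, f_i)`, `e_i = S(p_i, p_i) / 2` (up to sign), of type `Ty1`. By TYP the triple
`ψ (h_1), ψ (e_1), ψ (f_1)` has one of the three types; there is `y = S(p1, p2) ≠ 0` with
`[h_1, y] = y`, and in the types `Std 3` and `Ty2` the differences of the eigenvalues of `h` are even,
so it has type `Ty1`; similarly for the second triple. The second triple commutes with the first, so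
it preserves the plane `P_1` of the first triple (the sum of the eigenspaces of `ψ (h_1)` for `1, -1`)
and acts by scalars of trace zero on it, so by zero, and it is the plane `P_2` of the second triple
which is the kernel of `ψ (h_1)`. Get a symplectic basis `p1', q1', p2', q2'` such that `ψ (e_i), ...`
are the corresponding operators. `x = S(p1, q2)` has `[h_1, x] = x`, `[h_2, x] = -x`; the same holds
for `ψ (x)`, so `ψ (x) = c S(p1', q2')`, `c ≠ 0`; change `p2', q2'` to `c⁻¹ p2', c q2'`, so `c = 1`;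
`y = S(q1, p2)`: `ψ (y) = d S(q1', p2')`, and `d = 1` because `[x, y]` is a combination of `h_1, h_2`.
Let `T` map the first basis to the second. The `a` with `T a = ψ (a) T` are closed under brackets and
contain `e_i, f_i, x, y`, which generate `SP ω`. -/
def S_UNI : Prop := ∀ (W W' : Type) [AddCommGroup W] [Module ℂ W] [FiniteDimensional ℂ W]
  [AddCommGroup W'] [Module ℂ W'] [FiniteDimensional ℂ W'] (ω : W →ₗ[ℂ] W →ₗ[ℂ] ℂ)
  (ω' : W' →ₗ[ℂ] W' →ₗ[ℂ] ℂ), Sym ω → Sym ω' → finrank ℂ W = 4 → finrank ℂ W' = 4 →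
  ∀ R : Submodule ℂ (Module.End ℂ W × Module.End ℂ W'),
  (∀ p ∈ R, ∀ q ∈ R, (p.1 * q.1 - q.1 * p.1, p.2 * q.2 - q.2 * p.2) ∈ R) →
  (∀ p ∈ R, Skew ω p.1 ∧ Skew ω' p.2) → (∀ x, Skew ω x → ∃ y, (x, y) ∈ R) →
  (∀ y, Skew ω' y → ∃ x, (x, y) ∈ R) → (∀ x, (x, (0 : Module.End ℂ W')) ∈ R → x = 0) →
  (∀ y, ((0 : Module.End ℂ W), y) ∈ R → y = 0) →
  ∃ T : W →ₗ[ℂ] W', T ≠ 0 ∧ ∀ p ∈ R, T ∘ₗ p.1 = p.2 ∘ₗ T

/-- **SW/RIB.** The lemma of Goursat and Ribet, with classes: `L` acts on the `W i` through simple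
Lie algebras; for every `x ∈ L` there is `y ∈ L` with the same action on `W i` which is zero on
all `W j` for which there is an element of `L` which is zero on `W j` and not on `W i`.

Proof: let `L_i` be the image of `L` in `End (W i)`. For `j` as above the images in `L_i` of the
elements of `L` which are zero on `W j` are a nonzero ideal, so everything. By induction on a finite
set `S` of such `j` the same holds for the elements which are zero on all `W j`, `j ∈ S`: `L_i` is
spanned by brackets, so by brackets of elements of the two ideals, and these brackets come from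
brackets of elements zero on `W j`, `j ∈ S`, and elements zero on `W j₀`. -/
def S_RIB : Prop := ∀ (V : Type) [AddCommGroup V] [Module ℂ V]
  (n : ℕ) (W : Fin n → Submodule ℂ V) (L : Submodule ℂ (Module.End ℂ V)), LieC L →
  ∀ hst : ∀ i, ∀ x ∈ L, ∀ u ∈ W i, x u ∈ W i,
  (∀ i, ∃ Li : Submodule ℂ (Module.End ℂ (W i)), Simp Li ∧
    (∀ x (hx : x ∈ L), x.restrict (hst i x hx) ∈ Li) ∧
    ∀ y ∈ Li, ∃ x, ∃ hx : x ∈ L, x.restrict (hst i x hx) = y) →
  ∀ i, ∀ x ∈ L, ∃ y ∈ L, (∀ u ∈ W i, y u = x u) ∧ ∀ j,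
    (∃ z ∈ L, (∀ u ∈ W j, z u = 0) ∧ ∃ u ∈ W i, z u ≠ 0) → ∀ u ∈ W j, y u = 0

/-- **SW/LOC.** Invariant alternating forms of a triple acting on `V` as the sum of its irreducible
representation of dimension four (basis `b (j k)`), at most one irreducible representation of
dimension two (the other `b i` of weights `1, -1`) and a trivial representation (the other `b i` of
weight `0`) are killed by `sp(4)` acting on the first summand.

Proof: it suffices to look at the values `φ (b (I k))`, `I : ι' → ι` (the indices of the variables),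
and we may assume that `I` is injective (`Kil x φ` is alternating too, or directly). The value is zero
if the sum of the weights `w (I k)` is not zero. Let `T` be the set of the elements of `range j` which
are values of `I` (weights `3, 1, -1, -3`) and `T'` those outside of weight `1` or `-1`, so the
sum of the weights of `T'` is `-1, 0` or `1`. Using `Kil f φ` and `Kil e φ`:
* `T` of one element: `T = {1}, T' = {-1}` follows from `f` applied to `{3}, {-1}`, and
  `T = {-1}, T' = {1}` from `e` applied to `{-3}, {1}`: the values are zero.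
* `T` of three elements: `{3, 1, -3}, {-1}` from `f` applied to `{3, 1, -1}, {-1}`, and
  `{3, -1, -3}, {1}` from `e` applied to `{1, -1, -3}, {1}`: zero.
* `T` of two elements, at the positions `p, q`: `{3, -3}` or `{1, -1}`; `f` applied to `3` at `p` and
  `-1` at `q` gives `φ (1 at p, -1 at q) + φ (3 at p, -3 at q) = 0`, the same relation as for `ω`. So
  the value is `ω (b (I p), b (I q))` times a constant which depends only on the other variables, and
  `x` is skew for `ω`.
* `T` of four elements: `x` acts by its trace, which is zero.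
* `T` empty: `x` acts by zero. -/
def S_LOC : Prop := ∀ (V ι ι' : Type) [AddCommGroup V] [Module ℂ V] [Fintype ι] [DecidableEq ι]
  [Fintype ι'] [DecidableEq ι'] (b : Basis ι ℂ V) (w : ι → ℤ) (j : Fin 4 → ι)
  (ω : V →ₗ[ℂ] V →ₗ[ℂ] ℂ) (h e f : Module.End ℂ V) (φ : MultilinearMap ℂ (fun _ : ι' => V) ℂ),
  Function.Injective j → (∀ k : Fin 4, w (j k) = 3 - 2 * (k : ℕ)) →
  (∀ i, h (b i) = (w i : ℂ) • b i) →
  f (b (j 0)) = b (j 1) → f (b (j 1)) = b (j 2) → f (b (j 2)) = b (j 3) → f (b (j 3)) = 0 →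
  e (b (j 0)) = 0 → e (b (j 1)) = (3 : ℂ) • b (j 0) → e (b (j 2)) = (4 : ℂ) • b (j 1) →
  e (b (j 3)) = (3 : ℂ) • b (j 2) →
  (∀ i, i ∉ Set.range j → w i = 0 ∨ w i = 1 ∨ w i = -1) →
  (∀ i i', i ∉ Set.range j → i' ∉ Set.range j → w i = w i' → w i ≠ 0 → i = i') →
  (∀ i, i ∉ Set.range j → w i = 0 → e (b i) = 0 ∧ f (b i) = 0) →
  (∀ i, i ∉ Set.range j → w i = 1 → e (b i) = 0 ∧
    f (b i) ∈ Submodule.span ℂ (b '' {i' | i' ∉ Set.range j ∧ w i' = -1})) →
  (∀ i, i ∉ Set.range j → w i = -1 → f (b i) = 0 ∧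
    e (b i) ∈ Submodule.span ℂ (b '' {i' | i' ∉ Set.range j ∧ w i' = 1})) →
  (∀ v, ω v v = 0) → Skew ω h → Skew ω f → ω (b (j 0)) (b (j 3)) ≠ 0 →
  (∀ (v : ι' → V) (k l : ι'), k ≠ l → v k = v l → φ v = 0) →
  Kil h φ → Kil e φ → Kil f φ →
  ∀ x : Module.End ℂ V, (∀ i, i ∉ Set.range j → x (b i) = 0) →
    (∀ k, x (b (j k)) ∈ Submodule.span ℂ (Set.range fun k => b (j k))) → Skew ω x → Kil x φ

/-- **SW/FFT.** The first fundamental theorem for a product of symplectic groups.

Proof: the restriction of `ω` to the span of each class is nondegenerate, so there is a basis of `V`,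
indexed by a finite type `R` with an involution `inv`, adapted to the classes and symplectic
(`Pool.Agent.P8H30.FF.Darb.exists_sympl` for each class), then
`Pool.Agent.H204R3.GP.fftG` with `cls (inv x) = cls x`; see the end of the proof of `tateG_mem` in
`Pool/Agent/H204R3/GP/TateG.lean`. -/
def S_FFT : Prop := ∀ (V Q : Type) [AddCommGroup V] [Module ℂ V] [FiniteDimensional ℂ V]
  [DecidableEq Q] (n : ℕ) (b : Basis (Fin n) ℂ V) (χ : Fin n → Q) (ω : V →ₗ[ℂ] V →ₗ[ℂ] ℂ),
  Sym ω → (∀ i j, χ i ≠ χ j → ω (b i) (b j) = 0) →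
  ∀ (ι : Type) [Fintype ι] [DecidableEq ι] (k : ℕ), Fintype.card ι = 2 * k →
  ∀ φ : MultilinearMap ℂ (fun _ : ι => V) ℂ,
    (∀ Y : Module.End ℂ V, Skew ω Y → (∀ i j, χ i ≠ χ j → b.repr (Y (b j)) i = 0) → Kil Y φ) →
    φ ∈ Submodule.span ℂ (PrB ι k {γ | ∃ (P : Module.End ℂ V) (c : Q),
      (∀ i, P (b i) = if χ i = c then b i else 0) ∧ γ = ω.comp P})

/-- the situation of the main theorem -/
structure Dec (V : Type) [AddCommGroup V] [Module ℂ V] (ω : V →ₗ[ℂ] V →ₗ[ℂ] ℂ)
    (L : Submodule ℂ (Module.End ℂ V)) (n : ℕ) (W : Fin n → Submodule ℂ V) : Prop where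
  sym : Sym ω
  lie : LieC L
  skew : L ≤ SP ω
  int : DirectSum.IsInternal W
  stab : ∀ i, ∀ x ∈ L, ∀ u ∈ W i, x u ∈ W i
  irr : ∀ i, ∀ U ≤ W i, (∀ x ∈ L, ∀ u ∈ U, x u ∈ U) → U = ⊥ ∨ U = W i
  orth : ∀ i j, i ≠ j → ∀ u ∈ W i, ∀ v ∈ W j, ω u v = 0
  dist : ∀ i j, i ≠ j → ∀ T : Module.End ℂ V, (∀ x ∈ L, x * T = T * x) →
    (∀ u ∈ W i, T u ∈ W j) → ∀ u ∈ W i, T u = 0
  dim : ∀ i, finrank ℂ (W i) = 2 ∨ finrank ℂ (W i) = 4

/-- **SW/CORE.** -/
def S_CORE : Prop := ∀ (V : Type) [AddCommGroup V] [Module ℂ V] [FiniteDimensional ℂ V]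
  (ω : V →ₗ[ℂ] V →ₗ[ℂ] ℂ) (L : Submodule ℂ (Module.End ℂ V)) (n : ℕ) (W : Fin n → Submodule ℂ V),
  Dec V ω L n W → ∀ (ι : Type) [Fintype ι] [DecidableEq ι]
  (φ : MultilinearMap ℂ (fun _ : ι => V) ℂ),
  (∀ (v : ι → V) (k l : ι), k ≠ l → v k = v l → φ v = 0) → (∀ x ∈ L, Kil x φ) →
  ∀ Y : Module.End ℂ V, Skew ω Y → (∀ i, ∀ u ∈ W i, Y u ∈ W i) → Kil Y φ

end Pool.Agent.P8H30.SW
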