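import Pool.Agent.P8H30.FF.AV
import Pool.Agent.P8H30.SW.Stm
import Pool.Agent.N441.LCDESC
import Pool.Agent.Y102.AV12

set_option autoImplicit false
set_option linter.unusedSectionVars false
set_option linter.unusedVariables false

/-!
# Abelian varieties with self-adjoint endomorphisms: the decomposition and the assembly
-/

open Module TensorProduct

noncomputable section

namespace Pool.Agent.P8H30.SW

open Pool.Agent.Y102 Pool.Agent.W516.DR Pool.Agent.H204R3.GP Pool.Agent.W516.KC
  Pool.Agent.H204R3.SP Pool.Agent.P8H30.FF Pool.Agent.N208.LC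

/-- symplectic spaces have even dimension -/
theorem even_dim {V : Type} [AddCommGroup V] [Module ℂ V] [FiniteDimensional ℂ V]
    {ω : V →ₗ[ℂ] V →ₗ[ℂ] ℂ} (hω : Sym ω) : Even (finrank ℂ V) := by
  by_contra hodd
  rw [Nat.not_even_iff_odd] at hodd
  let b := Module.finBasis ℂ V
  let M : Matrix (Fin (finrank ℂ V)) (Fin (finrank ℂ V)) ℂ := LinearMap.toMatrix₂ b b ω
  have hanti : ∀ u v, ω u v = -ω v u := by
    intro u v
    have h1 := hω.alt (u + v)
    simp only [map_add, LinearMap.add_apply, hω.alt, zero_add, add_zero] at h1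
    linear_combination h1
  have hM : M.transpose = -M := by
    ext i j
    rw [Matrix.transpose_apply, Matrix.neg_apply]
    change LinearMap.toMatrix₂ b b ω j i = -(LinearMap.toMatrix₂ b b ω i j)
    rw [LinearMap.toMatrix₂_apply, LinearMap.toMatrix₂_apply]
    exact hanti _ _
  have hdet : M.det = 0 := by
    have h1 : M.transpose.det = M.det := Matrix.det_transpose M
    rw [hM, Matrix.det_neg, Fintype.card_fin, hodd.neg_one_pow] at h1
    have h2 : M.det = -M.det := by linear_combination -h1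
    exact self_eq_neg.1 h2
  have hnd : LinearMap.BilinForm.Nondegenerate ω := by
    refine ⟨fun u hu => hω.nd u hu, fun u hu => hω.nd u fun v => ?_⟩
    rw [hanti, hu, neg_zero]
  exact (LinearMap.BilinForm.nondegenerate_iff_det_ne_zero b).1 hnd hdet

variable {g : ℕ} (A : AbVar g)

/-- joint eigenspaces of the endomorphisms -/
def JE (χ : A.EA → ℂ) : Submodule ℂ (ℂ ⊗[ℚ] A.H1) :=
  ⨅ P : A.EA, Module.End.eigenspace ((P : Module.End ℚ A.H1).baseChange ℂ) (χ P)

theorem mem_JE {χ : A.EA → ℂ} {v : ℂ ⊗[ℚ] A.H1} :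
    v ∈ JE A χ ↔ ∀ P : A.EA, (P : Module.End ℚ A.H1).baseChange ℂ v = χ P • v := by
  unfold JE
  rw [Submodule.mem_iInf]
  exact forall_congr' fun P => Module.End.mem_eigenspace_iff

theorem JE_scalar {χ : A.EA → ℂ} {T : Module.End ℂ (ℂ ⊗[ℚ] A.H1)} (hT : T ∈ cx A.EA) :
    ∃ s : ℂ, ∀ u ∈ JE A χ, T u = s • u := by
  induction hT using Submodule.span_induction with
  | mem T hT =>
    obtain ⟨P, hP, rfl⟩ := hT
    exact ⟨χ ⟨P, hP⟩, fun u hu => (mem_JE A).1 hu ⟨P, hP⟩⟩
  | zero => exact ⟨0, fun u _ => by rw [LinearMap.zero_apply, zero_smul]⟩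
  | add a b _ _ ha hb =>
    obtain ⟨s, hs⟩ := ha
    obtain ⟨t, ht⟩ := hb
    exact ⟨s + t, fun u hu => by rw [LinearMap.add_apply, hs u hu, ht u hu, add_smul]⟩
  | smul c a _ ha =>
    obtain ⟨s, hs⟩ := ha
    exact ⟨c * s, fun u hu => by rw [LinearMap.smul_apply, hs u hu, smul_smul]⟩

theorem JE_stab {χ : A.EA → ℂ} {x : Module.End ℂ (ℂ ⊗[ℚ] A.H1)}
    (hx : ∀ P ∈ A.EA, x * P.baseChange ℂ = P.baseChange ℂ * x) : ∀ u ∈ JE A χ, x u ∈ JE A χ := by
  intro u hu
  rw [mem_JE] at hu ⊢
  intro P
  have h1 := LinearMap.congr_fun (hx P.1 P.2) u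
  rw [Module.End.mul_apply, Module.End.mul_apply, hu P, map_smul] at h1
  exact h1.symm

theorem LA_comm {x : Module.End ℂ (ℂ ⊗[ℚ] A.H1)} (hx : x ∈ cx A.LA) :
    ∀ P ∈ A.EA, x * P.baseChange ℂ = P.baseChange ℂ * x := by
  intro P hP
  refine (cx_comm (S := A.LA) (T := P.baseChange ℂ) (fun X hX => ?_) x hx).symm
  rw [← bc_mul, ← bc_mul, hP X hX]

variable (hsym : ∀ P ∈ A.EA, ∀ u v, A.om (P u) v = A.om u (P v))
include hsym

theorem JE_orth {χ χ' : A.EA → ℂ} (hne : χ ≠ χ') : ∀ u ∈ JE A χ, ∀ v ∈ JE A χ', omC A u v = 0 := by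
  intro u hu v hv
  obtain ⟨P, hP⟩ := Function.ne_iff.1 hne
  have h1 := adj_of_cx A hsym (bc_mem P.2) u v
  rw [(mem_JE A).1 hu P, (mem_JE A).1 hv P, map_smul, LinearMap.smul_apply, map_smul,
    smul_eq_mul, smul_eq_mul] at h1
  have h2 : (χ P - χ' P) * omC A u v = 0 := by linear_combination h1
  exact (mul_eq_zero.1 h2).resolve_left (sub_ne_zero.2 hP)

/-- **The decomposition.** -/
theorem exists_dec (hdim : ∀ χ : A.EA → ℂ, finrank ℂ (JE A χ) ≤ 4) :
    ∃ (n : ℕ) (b : Basis (Fin n) ℂ (ℂ ⊗[ℚ] A.H1)) (χ : Fin n → A.EA → ℂ) (N : ℕ)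
      (c : Fin N → A.EA → ℂ), (∀ k, b k ∈ JE A (χ k)) ∧ (∀ k, ∃ i, χ k = c i) ∧
      Dec (ℂ ⊗[ℚ] A.H1) (omC A) (cx A.LA) N (fun i => JE A (c i)) := by
  classical
  obtain ⟨n, b, χ, hb⟩ := exists_joint A hsym
  have hbJ : ∀ k, b k ∈ JE A (χ k) := fun k => (mem_JE A).2 (hb k)
  let X : Finset (A.EA → ℂ) := Finset.univ.image χ
  let e : Fin X.card ≃ X := X.equivFin.symm
  let c : Fin X.card → A.EA → ℂ := fun i => (e i).1
  have hc : Function.Injective c := fun i j h => e.injective (Subtype.ext h)
  have hcr : ∀ i, ∃ k, χ k = c i := by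
    intro i
    have h1 := (e i).2
    obtain ⟨k, -, hk⟩ := Finset.mem_image.1 h1
    exact ⟨k, hk⟩
  have hcs : ∀ k, ∃ i, χ k = c i := by
    intro k
    refine ⟨e.symm ⟨χ k, Finset.mem_image_of_mem χ (Finset.mem_univ k)⟩, ?_⟩
    change _ = (e (e.symm _)).1
    rw [e.apply_symm_apply]
  -- the coordinates of the elements of the eigenspaces
  have hrepr : ∀ (P : A.EA) v l, b.repr ((P : Module.End ℚ A.H1).baseChange ℂ v) l =
      χ l P * b.repr v l := by
    intro P v l
    have h4 : (Finsupp.lapply l ∘ₗ b.repr.toLinearMap) ∘ₗ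
        ((P : Module.End ℚ A.H1).baseChange ℂ) =
        (χ l P) • (Finsupp.lapply l ∘ₗ b.repr.toLinearMap) := by
      refine b.ext fun i => ?_
      rw [LinearMap.comp_apply, hb, map_smul, LinearMap.smul_apply, LinearMap.comp_apply,
        LinearEquiv.coe_coe, Basis.repr_self, Finsupp.lapply_apply, Finsupp.single_apply,
        smul_eq_mul, smul_eq_mul]
      by_cases hl : i = l
      · rw [if_pos hl, hl]
      · rw [if_neg hl, mul_zero, mul_zero]
    exact congrArg (fun F : ℂ ⊗[ℚ] A.H1 →ₗ[ℂ] ℂ => F v) h4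
  have hJr : ∀ χ' v, v ∈ JE A χ' → ∀ l, χ l ≠ χ' → b.repr v l = 0 := by
    intro χ' v hv l hne
    obtain ⟨P, hP⟩ := Function.ne_iff.1 hne
    have h1 := hrepr P v l
    rw [(mem_JE A).1 hv P, map_smul, Finsupp.smul_apply, smul_eq_mul] at h1
    have h2 : (χ l P - χ' P) * b.repr v l = 0 := by linear_combination -h1
    exact (mul_eq_zero.1 h2).resolve_left (sub_ne_zero.2 hP)
  have hsup : ∀ i v, v ∈ ⨆ (j) (_ : j ≠ i), JE A (c j) → ∀ l, χ l = c i → b.repr v l = 0 := by
    intro i v hv l hl
    have h1 : (⨆ (j) (_ : j ≠ i), JE A (c j)) ≤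
        LinearMap.ker ((Finsupp.lapply l ∘ₗ b.repr.toLinearMap : ℂ ⊗[ℚ] A.H1 →ₗ[ℂ] ℂ)) := by
      refine iSup_le fun j => iSup_le fun hj => fun w hw => ?_
      rw [LinearMap.mem_ker]
      refine hJr _ w hw l fun h => hj (hc ?_)
      rw [← h, hl]
    exact h1 hv
  have hdisj : ∀ i j, i ≠ j → ∀ v, v ∈ JE A (c i) → v ∈ JE A (c j) → v = 0 := by
    intro i j hij v hi hj
    rw [← LinearEquiv.map_eq_zero_iff b.repr]
    ext l
    rw [Finsupp.zero_apply]
    by_cases hl : χ l = c i
    · exact hJr _ v hj l fun h => hij (hc (hl.symm.trans h))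
    · exact hJr _ v hi l hl
  have hsc : ∀ i (T : Module.End ℂ (ℂ ⊗[ℚ] A.H1)), (∀ x ∈ cx A.LA, x * T = T * x) →
      ∃ s : ℂ, ∀ u ∈ JE A (c i), T u = s • u := by
    intro i T hT
    refine JE_scalar A (mem_cx A ?_)
    rintro _ ⟨Y, hY, rfl⟩
    exact hT _ (bc_mem hY)
  refine ⟨n, b, χ, X.card, c, hbJ, hcs, ?_⟩
  have hint : DirectSum.IsInternal (fun i => JE A (c i)) := by
    rw [DirectSum.isInternal_submodule_iff_iSupIndep_and_iSup_eq_top]
    constructor
    · intro i
      rw [Submodule.disjoint_def]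
      intro v hi hj
      rw [← LinearEquiv.map_eq_zero_iff b.repr]
      ext l
      rw [Finsupp.zero_apply]
      by_cases hl : χ l = c i
      · exact hsup i v hj l hl
      · exact hJr _ v hi l hl
    · rw [eq_top_iff, ← b.span_eq, Submodule.span_le]
      rintro _ ⟨k, rfl⟩
      obtain ⟨i, hi⟩ := hcs k
      have h1 := hbJ k
      rw [hi] at h1
      exact Submodule.mem_iSup_of_mem i h1
  have horth : ∀ i j, i ≠ j → ∀ u ∈ JE A (c i), ∀ v ∈ JE A (c j), omC A u v = 0 :=
    fun i j hij => JE_orth A hsym fun h => hij (hc h)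
  exact
    { sym := ⟨omC_alt A, omC_nd A⟩
      lie := by
        intro x hx y hy
        exact cx_br (fun X hX Y hY => by rw [← bc_br]; exact bc_mem (A.LA_bracket hX hY)) x hx y hy
      skew := by
        refine Submodule.span_le.2 ?_
        rintro _ ⟨X, hX, rfl⟩
        intro u v
        have h1 := QQ_skew A _ ⟨X, hX, rfl⟩ u v
        rw [LinearMap.neg_apply, map_neg] at h1
        rw [h1, neg_add_cancel]
      int := hint
      stab := fun i x hx => JE_stab A (LA_comm A hx)
      irr := by
        intro i U hU hst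
        obtain ⟨p, hp1, hp2, hp3⟩ := exists_proj A hsym U fun q hq u hu => by
          obtain ⟨Y, hY, rfl⟩ := hq
          exact hst _ (bc_mem hY) u hu
        obtain ⟨s, hs⟩ := JE_scalar A (χ := c i) (mem_cx A hp1)
        by_cases h0 : U = ⊥
        · exact Or.inl h0
        · right
          obtain ⟨u, hu, hne⟩ := (Submodule.ne_bot_iff U).1 h0
          have h1 := hp3 u hu
          rw [hs u (hU hu)] at h1
          have h2 : (s - 1) • u = 0 := by rw [sub_smul, h1, one_smul, sub_self]
          have h3 : s = 1 := sub_eq_zero.1 ((smul_eq_zero.1 h2).resolve_right hne)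
          refine le_antisymm hU fun w hw => ?_
          have h4 := hs w hw
          rw [h3, one_smul] at h4
          rw [← h4]
          exact hp2 w
      orth := horth
      dist := by
        intro i j hij T hT hTW u hu
        obtain ⟨s, hs⟩ := hsc i T hT
        refine hdisj i j hij _ ?_ (hTW u hu)
        rw [hs u hu]
        exact Submodule.smul_mem _ _ hu
      dim := by
        intro i
        obtain ⟨k, hk⟩ := hcr i
        have h0 : 0 < finrank ℂ (JE A (c i)) := by
          have h1 := hbJ k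
          rw [hk] at h1
          refine Module.finrank_pos_iff_exists_ne_zero.2 ⟨⟨b k, h1⟩, fun h => ?_⟩
          exact b.ne_zero k (congrArg Subtype.val h)
        have h4 := hdim (c i)
        have hS : Sym ((omC A).domRestrict₁₂ (JE A (c i)) (JE A (c i))) := by
          refine ⟨fun v => omC_alt A v, fun u hu => Subtype.ext (omC_nd A u fun v => ?_)⟩
          have hv : v ∈ (⨆ j, JE A (c j)) := by
            rw [hint.submodule_iSup_eq_top]
            trivial
          induction hv using Submodule.iSup_induction' with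
          | mem j v hv =>
            by_cases hj : i = j
            · subst hj
              exact hu ⟨v, hv⟩
            · exact horth i j hj u u.2 v hv
          | zero => rw [map_zero]
          | add a b _ _ ha hb => rw [map_add, ha, hb, add_zero]
        obtain ⟨r, hr⟩ := even_dim hS
        omega }

omit hsym in
/-- the base change of an alternating form is alternating -/
theorem bcm_alt {W ν ι : Type} [AddCommGroup W] [Module ℚ W] [Fintype ν] [DecidableEq ν]
    (β : Basis ν ℚ W) [Fintype ι] [DecidableEq ι] {φ : MultilinearMap ℚ (fun _ : ι => W) ℚ}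
    (halt : ∀ (v : ι → W) (k l : ι), k ≠ l → v k = v l → φ v = 0) :
    ∀ (v : ι → ℂ ⊗[ℚ] W) (k l : ι), k ≠ l → v k = v l → bcm (Ω := ℂ) β φ v = 0 := by
  have hswap : ∀ (v : ι → W) (k l : ι), k ≠ l → φ (fun x => v (Equiv.swap k l x)) = -φ v := by
    intro v k l hkl
    have hP : ∀ a b, φ (Function.update (Function.update v k a) l b) +
        φ (Function.update (Function.update v k b) l a) = 0 := by
      intro a b
      have h0 := halt (Function.update (Function.update v k (a + b)) l (a + b)) k l hkl (by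
        rw [Function.update_self, Function.update_of_ne hkl, Function.update_self])
      have h1 := halt (Function.update (Function.update v k a) l a) k l hkl (by
        rw [Function.update_self, Function.update_of_ne hkl, Function.update_self])
      have h2 := halt (Function.update (Function.update v k b) l b) k l hkl (by
        rw [Function.update_self, Function.update_of_ne hkl, Function.update_self])
      rw [φ.map_update_add, Function.update_comm hkl (a + b) a v,
        Function.update_comm hkl (a + b) b v, φ.map_update_add, φ.map_update_add,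
        Function.update_comm (Ne.symm hkl) a a v, Function.update_comm (Ne.symm hkl) a b v,
        Function.update_comm (Ne.symm hkl) b a v, Function.update_comm (Ne.symm hkl) b b v,
        h1, h2] at h0
      linear_combination h0
    have h1 := hP (v k) (v l)
    rw [Function.update_eq_self, Function.update_eq_self] at h1
    have h2 : (fun x => v (Equiv.swap k l x)) =
        Function.update (Function.update v k (v l)) l (v k) := by
      funext x
      by_cases hx : x = l
      · subst hx
        rw [Function.update_self, Equiv.swap_apply_right]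
      · rw [Function.update_of_ne hx]
        by_cases hx' : x = k
        · subst hx'
          rw [Function.update_self, Equiv.swap_apply_left]
        · rw [Function.update_of_ne hx', Equiv.swap_apply_of_ne_of_ne hx' hx]
    rw [h2]
    linear_combination h1
  intro v k l hkl hv
  have h3 : (bcm (Ω := ℂ) β φ).domDomCongr (Equiv.swap k l) = -bcm (Ω := ℂ) β φ := by
    refine Basis.ext_multilinear (fun _ => β.baseChange ℂ) fun I => ?_
    have h4 := bcm_basis (Ω := ℂ) β φ (fun x => I (Equiv.swap k l x))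
    have h5 := congrArg (algebraMap ℚ ℂ) (hswap (fun x => β (I x)) k l hkl)
    rw [map_neg, ← bcm_basis (Ω := ℂ) β φ I] at h5
    exact h4.trans h5
  have h5 := congrArg (fun F : MultilinearMap ℂ (fun _ : ι => ℂ ⊗[ℚ] W) ℂ => F v) h3
  simp only [MultilinearMap.domDomCongr_apply, MultilinearMap.neg_apply] at h5
  have h6 : (fun x => v (Equiv.swap k l x)) = v := by
    funext x
    by_cases hx : x = l
    · subst hx
      rw [Equiv.swap_apply_right, hv]
    · by_cases hx' : x = k
      · subst hx'
        rw [Equiv.swap_apply_left, hv]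
      · rw [Equiv.swap_apply_of_ne_of_ne hx' hx]
  rw [h6] at h5
  exact self_eq_neg.1 h5

omit hsym in
/-- the divisor classes -/
def QA : Submodule ℚ (A.H1 →ₗ[ℚ] A.H1 →ₗ[ℚ] ℚ) where
  carrier := {B | ∃ P ∈ A.EA, B = A.om.comp P}
  zero_mem' := ⟨0, A.EA.zero_mem, by rw [LinearMap.comp_zero]⟩
  add_mem' := by
    rintro _ _ ⟨P, hP, rfl⟩ ⟨R, hR, rfl⟩
    exact ⟨P + R, A.EA.add_mem hP hR, by rw [LinearMap.comp_add]⟩
  smul_mem' := by
    rintro c _ ⟨P, hP, rfl⟩
    exact ⟨c • P, A.EA.smul_mem c hP, by rw [LinearMap.comp_smul]⟩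

omit hsym in
theorem comp_mem {P : Module.End ℂ (ℂ ⊗[ℚ] A.H1)} (hP : P ∈ cx A.EA) :
    (omC A).comp P ∈ Submodule.span ℂ {γ : (ℂ ⊗[ℚ] A.H1) →ₗ[ℂ] (ℂ ⊗[ℚ] A.H1) →ₗ[ℂ] ℂ |
      ∃ q ∈ QA A, γ = LinearMap.BilinForm.baseChange ℂ q} := by
  induction hP using Submodule.span_induction with
  | mem P hP =>
    obtain ⟨R, hR, rfl⟩ := hP
    refine Submodule.subset_span ⟨A.om.comp R, ⟨R, hR, rfl⟩, ?_⟩
    apply bilin_ext
    intro u v
    rw [LinearMap.comp_apply, LinearMap.baseChange_tmul, omC_tmul]
    symm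
    rw [LinearMap.BilinForm.baseChange_tmul]
    simp
  | zero => rw [LinearMap.comp_zero]; exact Submodule.zero_mem _
  | add a b _ _ ha hb => rw [LinearMap.comp_add]; exact Submodule.add_mem _ ha hb
  | smul c a _ ha => rw [LinearMap.comp_smul]; exact Submodule.smul_mem _ _ ha

/-- **Main theorem**, from the two packages. -/
theorem main_av (hcore : S_CORE) (hfft : S_FFT)
    (hdim : ∀ χ : A.EA → ℂ, finrank ℂ (JE A χ) ≤ 4) {m : ℕ}
    {φ : MultilinearMap ℚ (fun _ : Fin m × Fin 2 => A.H1) ℚ}
    (hφ : IsDeRhamBettiForm QBar A.dR tau m φ)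
    (halt : ∀ v : Fin m × Fin 2 → A.H1, ∀ i j, i ≠ j → v i = v j → φ v = 0) :
    φ ∈ Submodule.span ℚ (A.LefProd A.EA m) := by
  classical
  obtain ⟨n, b, χ, N, c, hbJ, hcs, hD⟩ := exists_dec A hsym hdim
  have hkill : ∀ x ∈ cx A.LA, Kil x (bcm (Ω := ℂ) (Module.finBasis ℚ A.H1) φ) := by
    intro x hx
    induction hx using Submodule.span_induction with
    | mem x hx =>
      obtain ⟨X, hX, rfl⟩ := hx
      have h0 : Kills (X.baseChange ℂ) (bcm (Ω := ℂ) (Module.finBasis ℚ A.H1) φ) := by
        rw [kills_bcm_iff]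
        intro lam
        have h1 : cmpE lam (X.baseChange ℂ) = lam 1 • X := by
          refine LinearMap.ext fun w => ?_
          rw [cmpE_apply, LinearMap.baseChange_tmul, cmp_tmul, LinearMap.smul_apply]
        rw [h1]
        exact A.kills_of_mem hφ (A.LA.smul_mem _ hX)
      exact h0
    | zero =>
      intro v
      refine Finset.sum_eq_zero fun k _ => ?_
      exact (bcm (Ω := ℂ) (Module.finBasis ℚ A.H1) φ).map_coord_zero k (by
        rw [Function.update_self, LinearMap.zero_apply])
    | add a b _ _ ha hb =>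
      intro v
      have h1 := ha v
      have h2 := hb v
      simp only [LinearMap.add_apply, MultilinearMap.map_update_add, Finset.sum_add_distrib]
      rw [h1, h2, add_zero]
    | smul r a _ ha =>
      intro v
      have h1 := ha v
      simp only [LinearMap.smul_apply, MultilinearMap.map_update_smul, smul_eq_mul,
        ← Finset.mul_sum]
      rw [h1, mul_zero]
  have hrepr : ∀ i j, χ i ≠ χ j → ∀ v ∈ JE A (χ j), b.repr v i = 0 := by
    intro i j hij v hv
    obtain ⟨P, hP⟩ := Function.ne_iff.1 hij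
    have h1 : b.repr ((P : Module.End ℚ A.H1).baseChange ℂ v) i = χ i P * b.repr v i := by
      have h4 : (Finsupp.lapply i ∘ₗ b.repr.toLinearMap) ∘ₗ
          ((P : Module.End ℚ A.H1).baseChange ℂ) =
          (χ i P) • (Finsupp.lapply i ∘ₗ b.repr.toLinearMap) := by
        refine b.ext fun l => ?_
        rw [LinearMap.comp_apply, (mem_JE A).1 (hbJ l) P, map_smul, LinearMap.smul_apply,
          LinearMap.comp_apply, LinearEquiv.coe_coe, Basis.repr_self, Finsupp.lapply_apply,
          Finsupp.single_apply, smul_eq_mul, smul_eq_mul]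
        by_cases hl : l = i
        · rw [if_pos hl, hl]
        · rw [if_neg hl, mul_zero, mul_zero]
      exact congrArg (fun F : ℂ ⊗[ℚ] A.H1 →ₗ[ℂ] ℂ => F v) h4
    rw [(mem_JE A).1 hv P, map_smul, Finsupp.smul_apply, smul_eq_mul] at h1
    have h2 : (χ i P - χ j P) * b.repr v i = 0 := by linear_combination -h1
    exact (mul_eq_zero.1 h2).resolve_left (sub_ne_zero.2 hP)
  have hJmem : ∀ χ' v, (∀ l, χ l ≠ χ' → b.repr v l = 0) → v ∈ JE A χ' := by
    intro χ' v hv
    rw [← b.sum_repr v]
    refine Submodule.sum_mem _ fun l _ => ?_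
    by_cases hl : χ l = χ'
    · rw [← hl]
      exact Submodule.smul_mem _ _ (hbJ l)
    · rw [hv l hl, zero_smul]
      exact Submodule.zero_mem _
  have hC : bcm (Ω := ℂ) (Module.finBasis ℚ A.H1) φ ∈ Submodule.span ℂ
      (PrB (Fin m × Fin 2) m {γ | ∃ (P : Module.End ℂ (ℂ ⊗[ℚ] A.H1)) (c : A.EA → ℂ),
      (∀ i, P (b i) = if χ i = c then b i else 0) ∧ γ = (omC A).comp P}) := by
    refine hfft (ℂ ⊗[ℚ] A.H1) (A.EA → ℂ) n b χ (omC A) ⟨omC_alt A, omC_nd A⟩
      (fun i j hij => JE_orth A hsym hij _ (hbJ i) _ (hbJ j)) (Fin m × Fin 2) m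
      (by rw [Fintype.card_prod, Fintype.card_fin, Fintype.card_fin, mul_comm])
      _ fun Y hY hYb => ?_
    refine hcore (ℂ ⊗[ℚ] A.H1) (omC A) (cx A.LA) N _ hD (Fin m × Fin 2) _
      (bcm_alt _ halt) hkill Y hY fun i u hu => ?_
    refine hJmem _ _ fun l hl => ?_
    have h1 : Y u = ∑ k, b.repr u k • Y (b k) := by
      conv_lhs => rw [← b.sum_repr u]
      rw [map_sum]
      exact Finset.sum_congr rfl fun k _ => by rw [map_smul]
    rw [h1, map_sum, Finsupp.finsetSum_apply]
    refine Finset.sum_eq_zero fun k _ => ?_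
    rw [map_smul, Finsupp.smul_apply, smul_eq_mul]
    by_cases hk : χ k = c i
    · rw [hYb l k (by rw [hk]; exact hl), mul_zero]
    · have h2 : b.repr u k = 0 := by
        by_cases hex : ∃ j, χ j = c i
        · obtain ⟨j, hj⟩ := hex
          exact hrepr k j (by rw [hj]; exact hk) u (by rw [hj]; exact hu)
        · obtain ⟨P, hP⟩ := Function.ne_iff.1 hk
          have h3 : b.repr ((P : Module.End ℚ A.H1).baseChange ℂ u) k = χ k P * b.repr u k := by
            have h4 : (Finsupp.lapply k ∘ₗ b.repr.toLinearMap) ∘ₗ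
                ((P : Module.End ℚ A.H1).baseChange ℂ) =
                (χ k P) • (Finsupp.lapply k ∘ₗ b.repr.toLinearMap) := by
              refine b.ext fun l => ?_
              rw [LinearMap.comp_apply, (mem_JE A).1 (hbJ l) P, map_smul, LinearMap.smul_apply,
                LinearMap.comp_apply, LinearEquiv.coe_coe, Basis.repr_self, Finsupp.lapply_apply,
                Finsupp.single_apply, smul_eq_mul, smul_eq_mul]
              by_cases hl : l = k
              · rw [if_pos hl, hl]
              · rw [if_neg hl, mul_zero, mul_zero]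
            exact congrArg (fun F : ℂ ⊗[ℚ] A.H1 →ₗ[ℂ] ℂ => F u) h4
          rw [(mem_JE A).1 hu P, map_smul, Finsupp.smul_apply, smul_eq_mul] at h3
          have h5 : (χ k P - c i P) * b.repr u k = 0 := by linear_combination -h3
          exact (mul_eq_zero.1 h5).resolve_left (sub_ne_zero.2 hP)
      rw [h2, zero_mul]
  have hproj : ∀ (P : Module.End ℂ (ℂ ⊗[ℚ] A.H1)) (c : A.EA → ℂ),
      (∀ i, P (b i) = if χ i = c then b i else 0) → P ∈ cx A.EA := by
    intro P c' hP
    have hPv : ∀ j v, v ∈ JE A (χ j) → P v = if χ j = c' then v else 0 := by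
      intro j v hv
      have h1 : P v = ∑ k, b.repr v k • P (b k) := by
        conv_lhs => rw [← b.sum_repr v]
        rw [map_sum]
        exact Finset.sum_congr rfl fun k _ => by rw [map_smul]
      rw [h1]
      by_cases hj : χ j = c'
      · rw [if_pos hj]
        conv_rhs => rw [← b.sum_repr v]
        refine Finset.sum_congr rfl fun k _ => ?_
        by_cases hk : χ k = χ j
        · rw [hP, if_pos (hk.trans hj)]
        · rw [hrepr k j hk v hv, zero_smul, zero_smul]
      · rw [if_neg hj]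
        refine Finset.sum_eq_zero fun k _ => ?_
        by_cases hk : χ k = χ j
        · rw [hP, if_neg (fun h => hj (hk.symm.trans h)), smul_zero]
        · rw [hrepr k j hk v hv, zero_smul]
    refine mem_cx A ?_
    rintro _ ⟨X, hX, rfl⟩
    refine b.ext fun j => ?_
    rw [Module.End.mul_apply, Module.End.mul_apply, hP j,
      hPv j _ (JE_stab A (LA_comm A (bc_mem hX)) _ (hbJ j))]
    by_cases hj : χ j = c'
    · rw [if_pos hj, if_pos hj]
    · rw [if_neg hj, if_neg hj, map_zero]
  have hQ := Pool.Agent.N441.LCDESC.main A.H1 (Fin (finrank ℚ A.H1)) (Module.finBasis ℚ A.H1)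
    (Fin m × Fin 2) m (QA A) φ (by
      refine Submodule.span_mono ?_ hC
      rintro ψ ⟨ε, d, hd, hψ⟩
      refine ⟨ε, d, fun i => ?_, hψ⟩
      obtain ⟨P, c', hP, hγ⟩ := hd i
      rw [hγ]
      exact comp_mem A (hproj P c' hP))
  refine Submodule.span_mono ?_ hQ
  rintro ψ ⟨ε, d, hd, hψ⟩
  choose R hR hR' using hd
  refine ⟨ε, R, hR, fun v => ?_⟩
  rw [hψ]
  refine Finset.prod_congr rfl fun i _ => ?_
  rw [hR' i]
  rfl

end Pool.Agent.P8H30.SW
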