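import Pool.Agent.P8H30.SW.Stm

set_option autoImplicit false
set_option linter.unusedSectionVars false
set_option linter.unusedVariables false

/-!
# SW: lemmas for the main theorem
-/

open Module

namespace Pool.Agent.P8H30.SW

open Pool.Agent.N208.LC

/-! ### Forms killed by operators -/

section Kil

variable {V ι : Type} [AddCommGroup V] [Module ℂ V] [Fintype ι] [DecidableEq ι]

/-- the operators which kill a form -/
def KS (φ : MultilinearMap ℂ (fun _ : ι => V) ℂ) : Submodule ℂ (Module.End ℂ V) where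
  carrier := {x | Kil x φ}
  zero_mem' := by
    intro v
    refine Finset.sum_eq_zero fun k _ => ?_
    exact φ.map_coord_zero k (by rw [Function.update_self, LinearMap.zero_apply])
  add_mem' := by
    intro a b ha hb v
    have h1 := ha v
    have h2 := hb v
    simp only [LinearMap.add_apply, MultilinearMap.map_update_add, Finset.sum_add_distrib]
    rw [h1, h2, add_zero]
  smul_mem' := by
    intro r a ha v
    have h1 := ha v
    simp only [LinearMap.smul_apply, MultilinearMap.map_update_smul, smul_eq_mul,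
      ← Finset.mul_sum]
    rw [h1, mul_zero]

theorem mem_KS {φ : MultilinearMap ℂ (fun _ : ι => V) ℂ} {x : Module.End ℂ V} :
    x ∈ KS φ ↔ Kil x φ := Iff.rfl

theorem kil_bracket {φ : MultilinearMap ℂ (fun _ : ι => V) ℂ} {X Y : Module.End ℂ V}
    (hX : Kil X φ) (hY : Kil Y φ) : Kil (X * Y - Y * X) φ := by
  intro v
  have e1 : ∀ (X Y : Module.End ℂ V) (hX : Kil X φ),
      ∑ k, φ (Function.update v k (X (Y (v k)))) +
      ∑ k, ∑ l ∈ Finset.univ.erase k, φ (Function.update (Function.update v k (Y (v k))) l (X (v l)))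
      = 0 := by
    intro X Y hX
    rw [← Finset.sum_add_distrib]
    refine Finset.sum_eq_zero fun k _ => ?_
    have h1 := hX (Function.update v k (Y (v k)))
    rw [← Finset.add_sum_erase _ _ (Finset.mem_univ k), Function.update_self,
      Function.update_idem] at h1
    rw [← h1]
    congr 1
    refine Finset.sum_congr rfl fun l hl => ?_
    rw [Function.update_of_ne (Finset.ne_of_mem_erase hl)]
  have hsym : ∑ k, ∑ l ∈ Finset.univ.erase k,
      φ (Function.update (Function.update v k (Y (v k))) l (X (v l))) =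
      ∑ k, ∑ l ∈ Finset.univ.erase k,
      φ (Function.update (Function.update v k (X (v k))) l (Y (v l))) := by
    rw [Finset.sum_comm' (t' := Finset.univ) (s' := fun l => Finset.univ.erase l) (by
      intro k l
      simp only [Finset.mem_univ, Finset.mem_erase, true_and, and_true]
      exact ⟨fun h => ne_comm.1 h, fun h => ne_comm.1 h⟩)]
    refine Finset.sum_congr rfl fun k _ => Finset.sum_congr rfl fun l hl => ?_
    rw [Function.update_comm (Finset.ne_of_mem_erase hl)]
  have h1 := e1 X Y hX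
  have h2 := e1 Y X hY
  rw [hsym] at h1
  have h3 : ∑ k, φ (Function.update v k ((X * Y - Y * X) (v k))) =
      ∑ k, φ (Function.update v k (X (Y (v k)))) - ∑ k, φ (Function.update v k (Y (X (v k)))) := by
    rw [← Finset.sum_sub_distrib]
    refine Finset.sum_congr rfl fun k _ => ?_
    rw [LinearMap.sub_apply, Module.End.mul_apply, Module.End.mul_apply,
      MultilinearMap.map_update_sub]
  rw [h3]
  linear_combination h1 - h2

end Kil

section

variable {V : Type} [AddCommGroup V] [Module ℂ V] {ω : V →ₗ[ℂ] V →ₗ[ℂ] ℂ}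
  {n : ℕ} {W : Fin n → Submodule ℂ V} {K : Submodule ℂ (Module.End ℂ V)}

/-- linear maps are determined by their values on the summands -/
theorem ext_W (hint : DirectSum.IsInternal W) {M : Type} [AddCommGroup M] [Module ℂ M]
    {x y : V →ₗ[ℂ] M} (h : ∀ i, ∀ u ∈ W i, x u = y u) : x = y := by
  refine LinearMap.ext fun v => ?_
  have hv : v ∈ (⨆ j, W j) := by
    rw [hint.submodule_iSup_eq_top]
    trivial
  induction hv using Submodule.iSup_induction' with
  | mem j v hv => exact h j v hv
  | zero => rw [map_zero, map_zero]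
  | add a b _ _ ha hb => rw [map_add, map_add, ha, hb]

/-- the projections -/
theorem exists_pi (hint : DirectSum.IsInternal W) : ∃ π : Fin n → Module.End ℂ V,
    (∀ i v, π i v ∈ W i) ∧ (∀ i, ∀ u ∈ W i, π i u = u) ∧
    (∀ i j, i ≠ j → ∀ u ∈ W j, π i u = 0) ∧ ∑ i, π i = 1 := by
  classical
  let e : (DirectSum (Fin n) fun i => W i) ≃ₗ[ℂ] V :=
    LinearEquiv.ofBijective (DirectSum.coeLinearMap W) hint
  have he : ∀ i (u : W i), e.symm (u : V) = DirectSum.lof ℂ (Fin n) (fun i => W i) i u := by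
    intro i u
    rw [LinearEquiv.symm_apply_eq]
    change (u : V) = DirectSum.coeLinearMap W _
    rw [DirectSum.coeLinearMap_lof]
  let π : Fin n → Module.End ℂ V := fun i =>
    (W i).subtype ∘ₗ DirectSum.component ℂ (Fin n) (fun i => W i) i ∘ₗ e.symm.toLinearMap
  have h1 : ∀ i, ∀ u ∈ W i, π i u = u := by
    intro i u hu
    change (((DirectSum.component ℂ (Fin n) (fun i => W i) i) (e.symm ((⟨u, hu⟩ : W i) : V)) : W i) : V)
      = u
    rw [he, DirectSum.component.lof_self]
  have h2 : ∀ i j, i ≠ j → ∀ u ∈ W j, π i u = 0 := by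
    intro i j hij u hu
    change (((DirectSum.component ℂ (Fin n) (fun i => W i) i) (e.symm ((⟨u, hu⟩ : W j) : V)) : W i) : V)
      = 0
    rw [he, DirectSum.component.of, dif_neg (Ne.symm hij)]
    rfl
  refine ⟨π, fun i v => Submodule.coe_mem _, h1, h2, ?_⟩
  refine ext_W hint fun i u hu => ?_
  rw [LinearMap.sum_apply, Finset.sum_eq_single i (fun j _ hj => h2 j i hj u hu)
    (fun h => absurd (Finset.mem_univ _) h), h1 i u hu]
  rfl

/-- the image of `K` in the operators of a stable subspace -/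
def Im (K : Submodule ℂ (Module.End ℂ V)) (U : Submodule ℂ V) : Submodule ℂ (Module.End ℂ U) where
  carrier := {y | ∃ x ∈ K, ∀ u : U, ((y u : U) : V) = x u}
  zero_mem' := ⟨0, K.zero_mem, fun u => by simp⟩
  add_mem' := by
    rintro y y' ⟨x, hx, h⟩ ⟨x', hx', h'⟩
    refine ⟨x + x', K.add_mem hx hx', fun u => ?_⟩
    rw [LinearMap.add_apply, LinearMap.add_apply, Submodule.coe_add, h, h']
  smul_mem' := by
    rintro c y ⟨x, hx, h⟩
    refine ⟨c • x, K.smul_mem c hx, fun u => ?_⟩
    rw [LinearMap.smul_apply, LinearMap.smul_apply, Submodule.coe_smul, h]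

theorem mem_Im {U : Submodule ℂ V} {y : Module.End ℂ U} :
    y ∈ Im K U ↔ ∃ x ∈ K, ∀ u : U, ((y u : U) : V) = x u := Iff.rfl

theorem rest_mem {U : Submodule ℂ V} {x : Module.End ℂ V} (hx : x ∈ K) (hst : ∀ u ∈ U, x u ∈ U) :
    x.restrict hst ∈ Im K U := ⟨x, hx, fun u => rfl⟩

/-- the restriction of the form -/
def omR (ω : V →ₗ[ℂ] V →ₗ[ℂ] ℂ) (U : Submodule ℂ V) : U →ₗ[ℂ] U →ₗ[ℂ] ℂ := ω.domRestrict₁₂ U U

theorem omR_apply (U : Submodule ℂ V) (u v : U) : omR ω U u v = ω u v := rfl

variable (hD : Dec V ω K n W)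
include hD

theorem sym_R (i : Fin n) : Sym (omR ω (W i)) := by
  refine ⟨fun v => hD.sym.alt v, fun u hu => Subtype.ext (hD.sym.nd u fun v => ?_)⟩
  have h1 : (ω (u : V)) = 0 := ext_W hD.int fun j v hv => by
    rw [LinearMap.zero_apply]
    by_cases hj : i = j
    · subst hj
      exact hu ⟨v, hv⟩
    · exact hD.orth i j hj u u.2 v hv
  rw [h1, LinearMap.zero_apply]

theorem lie_R (i : Fin n) : LieC (Im K (W i)) := by
  rintro y ⟨x, hx, h⟩ y' ⟨x', hx', h'⟩
  refine ⟨x * x' - x' * x, hD.lie x hx x' hx', fun u => ?_⟩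
  rw [LinearMap.sub_apply, LinearMap.sub_apply, Submodule.coe_sub, Module.End.mul_apply,
    Module.End.mul_apply, Module.End.mul_apply, Module.End.mul_apply, h, h', h', h]

theorem skew_R (i : Fin n) : Im K (W i) ≤ SP (omR ω (W i)) := by
  rintro y ⟨x, hx, h⟩ u v
  rw [omR_apply, omR_apply, h, h]
  exact hD.skew hx u v

theorem irr_R (i : Fin n) : Irr (Im K (W i)) := by
  intro U hU
  have h1 := hD.irr i (U.map (W i).subtype) (by
    rintro _ ⟨u, -, rfl⟩
    exact u.2) (by
    rintro x hx _ ⟨u, hu, rfl⟩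
    refine ⟨x.restrict (fun v hv => hD.stab i x hx v hv) u, ?_, rfl⟩
    exact hU _ (rest_mem hx _) u hu)
  rcases h1 with h1 | h1
  · left
    rw [eq_bot_iff]
    intro u hu
    have h2 : (u : V) ∈ U.map (W i).subtype := ⟨u, hu, rfl⟩
    rw [h1, Submodule.mem_bot] at h2
    rw [Submodule.mem_bot]
    exact Subtype.ext h2
  · right
    rw [eq_top_iff]
    intro u _
    have h2 : (u : V) ∈ U.map (W i).subtype := by
      rw [h1]
      exact u.2
    obtain ⟨u', hu', h3⟩ := h2
    have : u' = u := Subtype.ext h3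
    rwa [← this]

/-- there are no intertwiners between different summands -/
theorem int0 {i j : Fin n} (hij : i ≠ j) (T : W i →ₗ[ℂ] W j)
    (hT : ∀ x (hx : x ∈ K) (u : W i),
      ((T ⟨x u, hD.stab i x hx u u.2⟩ : W j) : V) = x (T u : W j)) : T = 0 := by
  obtain ⟨π, h1, h2, h3, -⟩ := exists_pi hD.int
  let P : V →ₗ[ℂ] W i := LinearMap.codRestrict (W i) (π i) (h1 i)
  let S : Module.End ℂ V := (W j).subtype ∘ₗ T ∘ₗ P
  have hP : ∀ u : W i, P u = u := fun u => Subtype.ext (h2 i u u.2)
  have hP0 : ∀ k, i ≠ k → ∀ u ∈ W k, P u = 0 := fun k hk u hu => Subtype.ext (h3 i k hk u hu)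
  have hS : ∀ x ∈ K, x * S = S * x := by
    intro x hx
    refine ext_W hD.int fun k u hu => ?_
    rw [Module.End.mul_apply, Module.End.mul_apply]
    change x ((T (P u) : W j) : V) = ((T (P (x u)) : W j) : V)
    by_cases hk : i = k
    · subst hk
      have e1 := hP ⟨u, hu⟩
      have e2 := hP ⟨x u, hD.stab i x hx u hu⟩
      rw [e1, e2]
      exact (hT x hx ⟨u, hu⟩).symm
    · rw [hP0 k hk u hu, hP0 k hk _ (hD.stab k x hx u hu), map_zero, Submodule.coe_zero, map_zero]
  refine LinearMap.ext fun u => Subtype.ext ?_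
  have h4 := hD.dist i j hij S hS (fun u _ => (T (P u)).2) u u.2
  change ((T (P u) : W j) : V) = 0 at h4
  rw [hP] at h4
  exact h4

end

/-! ### Triples -/

section

variable {U : Type} [AddCommGroup U] [Module ℂ U]

theorem Trip.ne {h e f : Module.End ℂ U} (t : Trip h e f) (he : e = 0) : h = 0 ∧ f = 0 := by
  have h1 : h = 0 := by
    rw [← t.ef, he]
    simp
  refine ⟨h1, ?_⟩
  have h2 := t.hf
  rw [h1] at h2
  simp only [zero_mul, mul_zero, sub_zero] at h2
  have h3 : (2 : ℂ) • f = 0 := neg_eq_zero.1 h2.symm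
  exact (smul_eq_zero.1 h3).resolve_left (by norm_num)

theorem irr_zero {L : Submodule ℂ (Module.End ℂ U)} [FiniteDimensional ℂ U] (hI : Irr L)
    (hd : 2 ≤ finrank ℂ U) : ∃ x ∈ L, x ≠ 0 := by
  by_contra hcon
  push Not at hcon
  have h0 : 0 < finrank ℂ U := by omega
  have : Nontrivial U := Module.finrank_pos_iff.1 h0
  obtain ⟨u, hu⟩ := exists_ne (0 : U)
  have h1 := hI (Submodule.span ℂ {u}) fun x hx v hv => by
    rw [hcon x hx, LinearMap.zero_apply]; exact Submodule.zero_mem _
  rcases h1 with h1 | h1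
  · rw [Submodule.span_singleton_eq_bot] at h1
    exact hu h1
  · have h2 := finrank_span_singleton (K := ℂ) hu
    rw [h1, finrank_top] at h2
    omega

theorem trip_e_ne {h e f : Module.End ℂ U} [FiniteDimensional ℂ U] (t : Trip h e f)
    (hI : Irr (Submodule.span ℂ {h, e, f})) (hd : 2 ≤ finrank ℂ U) : e ≠ 0 := by
  intro he
  obtain ⟨h1, h2⟩ := t.ne he
  obtain ⟨x, hx, hne⟩ := irr_zero hI hd
  apply hne
  rw [he, h1, h2] at hx
  simpa using hx

theorem mem_span3 {h e f x : Module.End ℂ U} : x ∈ Submodule.span ℂ {h, e, f} ↔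
    ∃ a b c : ℂ, x = a • h + b • e + c • f := by
  rw [Submodule.mem_span_insert]
  constructor
  · rintro ⟨a, z, hz, rfl⟩
    rw [Submodule.mem_span_pair] at hz
    obtain ⟨b, c, rfl⟩ := hz
    exact ⟨a, b, c, by rw [add_assoc]⟩
  · rintro ⟨a, b, c, rfl⟩
    refine ⟨a, b • e + c • f, ?_, by rw [add_assoc]⟩
    rw [Submodule.mem_span_pair]
    exact ⟨b, c, rfl⟩

/-- In dimension four the symplectic Lie algebra is not spanned by a triple. -/
theorem sp_ne (hSTD : S_STD) [FiniteDimensional ℂ U] {ω : U →ₗ[ℂ] U →ₗ[ℂ] ℂ} (hω : Sym ω)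
    (hd : finrank ℂ U = 4) {h e f : Module.End ℂ U} (t : Trip h e f)
    (hI : Irr (Submodule.span ℂ {h, e, f})) (hs : SP ω = Submodule.span ℂ {h, e, f}) : False := by
  obtain ⟨b, hb⟩ := hSTD 3 U h e f t hI hd
  have hanti : ∀ u v, ω u v = -ω v u := by
    intro u v
    have h1 := hω.alt (u + v)
    simp only [map_add, LinearMap.add_apply, hω.alt, zero_add, add_zero] at h1
    linear_combination h1
  have hh : Skew ω h := by
    have : h ∈ SP ω := by rw [hs]; exact Submodule.subset_span (by simp)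
    exact this
  have w0 : h (b 0) = (3 : ℂ) • b 0 := by rw [hb.hb]; norm_num
  have w1 : h (b 1) = (1 : ℂ) • b 1 := by rw [hb.hb]; norm_num
  have w2 : h (b 2) = (-1 : ℂ) • b 2 := by rw [hb.hb]; norm_num
  have o01 : ω (b 0) (b 1) = 0 := by
    have h1 := hh (b 0) (b 1)
    rw [w0, w1] at h1
    simp only [map_smul, LinearMap.smul_apply, smul_eq_mul] at h1
    linear_combination (1 / 4) * h1
  have o02 : ω (b 0) (b 2) = 0 := by
    have h1 := hh (b 0) (b 2)
    rw [w0, w2] at h1
    simp only [map_smul, LinearMap.smul_apply, smul_eq_mul] at h1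
    linear_combination (1 / 2) * h1
  have o03 : ω (b 0) (b 3) ≠ 0 := by
    intro h0
    apply b.ne_zero 0
    apply hω.nd
    intro v
    have h1 : ω (b 0) = 0 := b.ext fun k => by
      rw [LinearMap.zero_apply]
      fin_cases k
      · exact hω.alt _
      · exact o01
      · exact o02
      · exact h0
    rw [h1, LinearMap.zero_apply]
  -- the element of rank one
  let x : Module.End ℂ U := (ω (b 0)).smulRight (b 0)
  have hx : ∀ v, x v = ω (b 0) v • b 0 := fun v => rfl
  have hxs : x ∈ SP ω := by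
    intro u v
    rw [hx, hx, map_smul, LinearMap.smul_apply, map_smul, smul_eq_mul, smul_eq_mul,
      hanti u (b 0)]
    ring
  rw [hs, mem_span3] at hxs
  obtain ⟨p, q, r, h1⟩ := hxs
  have h2 : x (b 2) = 0 := by rw [hx, o02, zero_smul]
  have e2 : e (b 2) = (4 : ℂ) • b 1 := by
    have := hb.eb 1
    norm_num at this
    exact this
  have f2 : f (b 2) = b 3 := by
    have := hb.fb 2
    exact this
  rw [h1] at h2
  simp only [LinearMap.add_apply, LinearMap.smul_apply] at h2
  rw [w2, e2, f2] at h2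
  have h3 := congrArg (fun v => b.repr v 2) h2
  have h4 := congrArg (fun v => b.repr v 1) h2
  have h5 := congrArg (fun v => b.repr v 3) h2
  simp at h3 h4 h5
  have h6 : x (b 3) = 0 := by
    rw [h1, h3, h4, h5]
    simp
  rw [hx] at h6
  rcases smul_eq_zero.1 h6 with h7 | h7
  · exact o03 h7
  · exact b.ne_zero 0 h7

end

end Pool.Agent.P8H30.SW
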