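import Pool.Agent.P8H30.SW.Core1

set_option autoImplicit false
set_option linter.unusedSectionVars false
set_option linter.unusedVariables false

/-!
# SW: linked summands
-/

open Module

namespace Pool.Agent.P8H30.SW

open Pool.Agent.N208.LC

variable {V : Type} [AddCommGroup V] [Module ℂ V] [FiniteDimensional ℂ V]
  {ω : V →ₗ[ℂ] V →ₗ[ℂ] ℂ} {n : ℕ} {W : Fin n → Submodule ℂ V}
  {K : Submodule ℂ (Module.End ℂ V)}

/-- all elements of `K` which are zero on `W j` are zero on `W i` -/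
def Lnk (K : Submodule ℂ (Module.End ℂ V)) (W : Fin n → Submodule ℂ V) (i j : Fin n) : Prop :=
  ∀ z ∈ K, (∀ u ∈ W j, z u = 0) → ∀ u ∈ W i, z u = 0

/-- standard bases of subspaces -/
structure StdV (m : ℕ) (H E F : Module.End ℂ V) (U : Submodule ℂ V)
    (b : Basis (Fin (m + 1)) ℂ U) : Prop where
  hb : ∀ k : Fin (m + 1), H (b k : V) = ((m : ℂ) - 2 * ((k : ℕ) : ℂ)) • (b k : V)
  fb : ∀ k : Fin m, F (b k.castSucc : V) = (b k.succ : V)
  fl : F (b (Fin.last m) : V) = 0
  eb : ∀ k : Fin m, E (b k.succ : V) =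
    ((((k : ℕ) : ℂ) + 1) * ((m : ℂ) - ((k : ℕ) : ℂ))) • (b k.castSucc : V)
  e0 : E (b 0 : V) = 0

variable (hD : Dec V ω K n W)
include hD

theorem two_le (i : Fin n) : 2 ≤ finrank ℂ (W i) := by
  rcases hD.dim i with h | h <;> omega

theorem simp_R (hD2 : S_D2) (hD4 : S_D4) (hSI : S_SI) (hSI2 : S_SI2) (i : Fin n) :
    Simp (Im K (W i)) := by
  rcases hD.dim i with hd | hd
  · obtain ⟨h1, -⟩ := hD2 (W i) (omR ω (W i)) (Im K (W i)) (sym_R hD i) hd (lie_R hD i)
      (skew_R hD i) (irr_R hD i)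
    rw [h1]
    exact hSI _ _ (sym_R hD i)
  · rcases hD4 (W i) (omR ω (W i)) (Im K (W i)) (sym_R hD i) hd (lie_R hD i)
      (skew_R hD i) (irr_R hD i) with h1 | ⟨h, e, f, t, h1⟩
    · rw [h1]
      exact hSI _ _ (sym_R hD i)
    · have h2 := irr_R hD i
      rw [h1] at h2 ⊢
      exact hSI2 _ _ _ _ t (trip_e_ne t h2 (by omega))

theorem lnk_symm (hs : ∀ i, Simp (Im K (W i))) {i j : Fin n} (h : Lnk K W i j) : Lnk K W j i := by
  let I : Submodule ℂ (Module.End ℂ (W j)) :=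
    { carrier := {y | ∃ z ∈ K, (∀ u ∈ W i, z u = 0) ∧ ∀ u : W j, ((y u : W j) : V) = z u}
      zero_mem' := ⟨0, K.zero_mem, fun u _ => rfl, fun u => by simp⟩
      add_mem' := by
        rintro y y' ⟨x, hx, h0, h⟩ ⟨x', hx', h0', h'⟩
        refine ⟨x + x', K.add_mem hx hx', fun u hu => ?_, fun u => ?_⟩
        · rw [LinearMap.add_apply, h0 u hu, h0' u hu, add_zero]
        · rw [LinearMap.add_apply, LinearMap.add_apply, Submodule.coe_add, h, h']
      smul_mem' := by
        rintro c y ⟨x, hx, h0, h⟩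
        refine ⟨c • x, K.smul_mem c hx, fun u hu => ?_, fun u => ?_⟩
        · rw [LinearMap.smul_apply, h0 u hu, smul_zero]
        · rw [LinearMap.smul_apply, LinearMap.smul_apply, Submodule.coe_smul, h] }
  have hIle : I ≤ Im K (W j) := by
    rintro y ⟨z, hz, -, h2⟩
    exact ⟨z, hz, h2⟩
  have hId : ∀ x ∈ Im K (W j), ∀ y ∈ I, x * y - y * x ∈ I := by
    rintro x ⟨x', hx', h1⟩ y ⟨z, hz, h2, h3⟩
    refine ⟨x' * z - z * x', hD.lie _ hx' _ hz, fun u hu => ?_, fun u => ?_⟩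
    · rw [LinearMap.sub_apply, Module.End.mul_apply, Module.End.mul_apply, h2 u hu,
        h2 _ (hD.stab i x' hx' u hu), map_zero, sub_zero]
    · rw [LinearMap.sub_apply, LinearMap.sub_apply, Submodule.coe_sub, Module.End.mul_apply,
        Module.End.mul_apply, Module.End.mul_apply, Module.End.mul_apply, h1, h3, h3, h1]
  rcases (hs j).1 I hIle hId with h0 | h0
  · intro z hz hzi u hu
    have h1 : z.restrict (hD.stab j z hz) ∈ I := ⟨z, hz, hzi, fun u => rfl⟩
    rw [h0, Submodule.mem_bot] at h1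
    have h2 := congrArg (fun F : Module.End ℂ (W j) => ((F ⟨u, hu⟩ : W j) : V)) h1
    exact h2
  · exfalso
    obtain ⟨y, hy, hne⟩ := irr_zero (irr_R hD i) (two_le hD i)
    apply hne
    obtain ⟨x, hx, h1⟩ := hy
    have h2 : x.restrict (hD.stab j x hx) ∈ I := by
      rw [h0]
      exact rest_mem hx _
    obtain ⟨z, hz, h3, h4⟩ := h2
    have h5 := h (x - z) (K.sub_mem hx hz) fun u hu => by
      rw [LinearMap.sub_apply, ← h4 ⟨u, hu⟩]
      exact sub_self _
    refine LinearMap.ext fun u => Subtype.ext ?_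
    have h6 := h5 u u.2
    rw [LinearMap.sub_apply, h3 u u.2, sub_zero] at h6
    rw [h1, h6]
    rfl

theorem rib_R (hRIB : S_RIB) (hs : ∀ i, Simp (Im K (W i))) (i : Fin n) : ∀ x ∈ K, ∃ y ∈ K,
    (∀ u ∈ W i, y u = x u) ∧ ∀ j, ¬ Lnk K W i j → ∀ u ∈ W j, y u = 0 := by
  intro x hx
  obtain ⟨y, hy, h1, h2⟩ := hRIB V n W K hD.lie hD.stab (fun j => ⟨Im K (W j), hs j,
    fun x hx => rest_mem hx _, fun y hy => by
      obtain ⟨x, hx, h1⟩ := hy
      exact ⟨x, hx, LinearMap.ext fun u => Subtype.ext (h1 u).symm⟩⟩) i x hx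
  refine ⟨y, hy, h1, fun j hj => h2 j ?_⟩
  unfold Lnk at hj
  push Not at hj
  exact hj

/-- **Lifting of a triple.** -/
theorem exists_lift (hRIB : S_RIB) (hs : ∀ i, Simp (Im K (W i))) {i : Fin n}
    {h e f : Module.End ℂ (W i)} (t : Trip h e f) (hsp : Im K (W i) = Submodule.span ℂ {h, e, f}) :
    ∃ H ∈ K, ∃ E ∈ K, ∃ F ∈ K, Trip H E F ∧ (∀ u : W i, ((h u : W i) : V) = H u) ∧
      (∀ u : W i, ((e u : W i) : V) = E u) ∧ (∀ u : W i, ((f u : W i) : V) = F u) ∧
      (∀ j, ¬ Lnk K W i j → ∀ u ∈ W j, H u = 0 ∧ E u = 0 ∧ F u = 0) ∧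
      ∀ x ∈ K, ∃ a b c : ℂ, ∀ j, Lnk K W i j → ∀ u ∈ W j, x u = (a • H + b • E + c • F) u := by
  have hlift : ∀ y ∈ Im K (W i), ∃ Y ∈ K, (∀ u : W i, ((y u : W i) : V) = Y u) ∧
      ∀ j, ¬ Lnk K W i j → ∀ u ∈ W j, Y u = 0 := by
    rintro y ⟨x, hx, h1⟩
    obtain ⟨Y, hY, h2, h3⟩ := rib_R hD hRIB hs i x hx
    exact ⟨Y, hY, fun u => by rw [h1, h2 u u.2], h3⟩
  obtain ⟨H, hH, hH1, hH2⟩ := hlift h (by rw [hsp]; exact Submodule.subset_span (by simp))
  obtain ⟨E, hE, hE1, hE2⟩ := hlift e (by rw [hsp]; exact Submodule.subset_span (by simp))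
  obtain ⟨F, hF, hF1, hF2⟩ := hlift f (by rw [hsp]; exact Submodule.subset_span (by simp))
  have hzero : ∀ D ∈ K, (∀ u ∈ W i, D u = 0) → (∀ j, ¬ Lnk K W i j → ∀ u ∈ W j, D u = 0) →
      D = 0 := by
    intro D hDK h0 h1
    refine ext_W hD.int fun j u hu => ?_
    rw [LinearMap.zero_apply]
    by_cases hj : Lnk K W i j
    · exact lnk_symm hD hs hj D hDK h0 u hu
    · exact h1 j hj u hu
  have c1 : ∀ (X Y : Module.End ℂ V) (x y : Module.End ℂ (W i)),
      (∀ u : W i, ((x u : W i) : V) = X u) → (∀ u : W i, ((y u : W i) : V) = Y u) →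
      ∀ u : W i, (((x * y - y * x) u : W i) : V) = (X * Y - Y * X) u := by
    intro X Y x y hx hy u
    rw [LinearMap.sub_apply, LinearMap.sub_apply, Submodule.coe_sub, Module.End.mul_apply,
      Module.End.mul_apply, Module.End.mul_apply, Module.End.mul_apply, hx, hy, hy, hx]
  refine ⟨H, hH, E, hE, F, hF, ⟨?_, ?_, ?_⟩, hH1, hE1, hF1, fun j hj u hu =>
    ⟨hH2 j hj u hu, hE2 j hj u hu, hF2 j hj u hu⟩, fun x hx => ?_⟩
  · rw [← sub_eq_zero]
    refine hzero _ (K.sub_mem (hD.lie _ hH _ hE) (K.smul_mem _ hE)) (fun u hu => ?_)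
      fun j hj u hu => ?_
    · rw [LinearMap.sub_apply, ← c1 H E h e hH1 hE1 ⟨u, hu⟩, t.he, LinearMap.smul_apply,
        LinearMap.smul_apply, ← hE1 ⟨u, hu⟩]
      exact sub_self _
    · rw [LinearMap.sub_apply, LinearMap.sub_apply, Module.End.mul_apply, Module.End.mul_apply,
        LinearMap.smul_apply, hE2 j hj u hu, hH2 j hj u hu]
      simp
  · rw [← sub_eq_zero]
    refine hzero _ (K.sub_mem (hD.lie _ hH _ hF) (K.neg_mem (K.smul_mem _ hF))) (fun u hu => ?_)
      fun j hj u hu => ?_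
    · rw [LinearMap.sub_apply, ← c1 H F h f hH1 hF1 ⟨u, hu⟩, t.hf, LinearMap.neg_apply,
        LinearMap.smul_apply, LinearMap.neg_apply, LinearMap.smul_apply, ← hF1 ⟨u, hu⟩]
      exact sub_self _
    · rw [LinearMap.sub_apply, LinearMap.sub_apply, Module.End.mul_apply, Module.End.mul_apply,
        LinearMap.neg_apply, LinearMap.smul_apply, hF2 j hj u hu, hH2 j hj u hu]
      simp
  · rw [← sub_eq_zero]
    refine hzero _ (K.sub_mem (hD.lie _ hE _ hF) hH) (fun u hu => ?_) fun j hj u hu => ?_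
    · rw [LinearMap.sub_apply, ← c1 E F e f hE1 hF1 ⟨u, hu⟩, t.ef, ← hH1 ⟨u, hu⟩]
      exact sub_self _
    · rw [LinearMap.sub_apply, LinearMap.sub_apply, Module.End.mul_apply, Module.End.mul_apply,
        hF2 j hj u hu, hE2 j hj u hu, hH2 j hj u hu]
      simp
  · have h1 : x.restrict (hD.stab i x hx) ∈ Submodule.span ℂ {h, e, f} := by
      rw [← hsp]
      exact rest_mem hx _
    rw [mem_span3] at h1
    obtain ⟨a, b, c, h1⟩ := h1
    refine ⟨a, b, c, fun j hj u hu => ?_⟩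
    have h2 := lnk_symm hD hs hj (x - (a • H + b • E + c • F)) (K.sub_mem hx
      (K.add_mem (K.add_mem (K.smul_mem a hH) (K.smul_mem b hE)) (K.smul_mem c hF)))
      (fun v hv => by
        have h3 := congrArg (fun G : Module.End ℂ (W i) => ((G ⟨v, hv⟩ : W i) : V)) h1
        simp only [LinearMap.add_apply, LinearMap.smul_apply, Submodule.coe_add,
          Submodule.coe_smul] at h3
        rw [LinearMap.sub_apply, LinearMap.add_apply, LinearMap.add_apply, LinearMap.smul_apply,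
          LinearMap.smul_apply, LinearMap.smul_apply, ← hH1 ⟨v, hv⟩, ← hE1 ⟨v, hv⟩,
          ← hF1 ⟨v, hv⟩, ← h3]
        exact sub_self _) u hu
    rw [LinearMap.sub_apply, sub_eq_zero] at h2
    exact h2

/-- **Standard bases of the linked summands.** -/
theorem std_R (hSTD : S_STD) {H E F : Module.End ℂ V} (hH : H ∈ K) (hE : E ∈ K) (hF : F ∈ K)
    (t : Trip H E F) {j : Fin n}
    (hx : ∀ x ∈ K, ∃ a b c : ℂ, ∀ u ∈ W j, x u = (a • H + b • E + c • F) u) {m : ℕ}
    (hm : finrank ℂ (W j) = m + 1) : (∃ b : Basis (Fin (m + 1)) ℂ (W j), StdV m H E F (W j) b) ∧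
    ∃ h e f : Module.End ℂ (W j), Trip h e f ∧ Im K (W j) = Submodule.span ℂ {h, e, f} := by
  have t' : Trip (H.restrict (hD.stab j H hH)) (E.restrict (hD.stab j E hE))
      (F.restrict (hD.stab j F hF)) := by
    refine ⟨?_, ?_, ?_⟩
    · refine LinearMap.ext fun u => Subtype.ext ?_
      exact LinearMap.congr_fun t.he (u : V)
    · refine LinearMap.ext fun u => Subtype.ext ?_
      exact LinearMap.congr_fun t.hf (u : V)
    · refine LinearMap.ext fun u => Subtype.ext ?_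
      exact LinearMap.congr_fun t.ef (u : V)
  have hs : Im K (W j) = Submodule.span ℂ {H.restrict (hD.stab j H hH),
      E.restrict (hD.stab j E hE), F.restrict (hD.stab j F hF)} := by
    refine le_antisymm ?_ ?_
    · rintro y ⟨x, hxK, h1⟩
      obtain ⟨a, b, c, h2⟩ := hx x hxK
      rw [mem_span3]
      refine ⟨a, b, c, LinearMap.ext fun u => Subtype.ext ?_⟩
      rw [h1, h2 u u.2]
      rfl
    · rw [Submodule.span_le]
      rintro y (rfl | rfl | rfl)
      · exact rest_mem hH _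
      · exact rest_mem hE _
      · exact rest_mem hF _
  refine ⟨?_, _, _, _, t', hs⟩
  have hI := irr_R hD j
  rw [hs] at hI
  obtain ⟨b, hb⟩ := hSTD m (W j) _ _ _ t' hI hm
  refine ⟨b, ?_⟩
  have c : ∀ {x y : W j}, x = y → (x : V) = y := fun h => congrArg Subtype.val h
  exact
    { hb := fun k => c (hb.hb k)
      fb := fun k => c (hb.fb k)
      fl := c hb.fl
      eb := fun k => c (hb.eb k)
      e0 := c hb.e0 }

/-- two linked summands have different dimensions -/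
theorem iso_false {H E F : Module.End ℂ V} {j j' : Fin n} (hne : j ≠ j') {m : ℕ}
    {b : Basis (Fin (m + 1)) ℂ (W j)} {b' : Basis (Fin (m + 1)) ℂ (W j')}
    (hb : StdV m H E F (W j) b) (hb' : StdV m H E F (W j') b')
    (hx : ∀ x ∈ K, ∃ a b c : ℂ, (∀ u ∈ W j, x u = (a • H + b • E + c • F) u) ∧
      ∀ u ∈ W j', x u = (a • H + b • E + c • F) u) : False := by
  obtain ⟨T, hT⟩ : ∃ T : W j →ₗ[ℂ] W j', ∀ k, T (b k) = b' k :=
    ⟨b.constr ℂ b', fun k => b.constr_basis ℂ _ k⟩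
  -- the three operators
  have key : ∀ (X : Module.End ℂ V),
      (∀ k, ∃ w : W j, (w : V) = X (b k : V) ∧ X (b' k : V) = (T w : V)) →
      ∀ u : W j, ∃ w : W j, (w : V) = X u ∧ X (T u : V) = (T w : V) := by
    intro X hX u
    choose w h1 h2 using hX
    refine ⟨∑ k, b.repr u k • w k, ?_, ?_⟩
    · conv_rhs => rw [← b.sum_repr u]
      rw [Submodule.coe_sum, Submodule.coe_sum, map_sum]
      refine Finset.sum_congr rfl fun k _ => ?_
      rw [Submodule.coe_smul, Submodule.coe_smul, map_smul, h1]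
    · conv_lhs => rw [← b.sum_repr u]
      rw [map_sum, map_sum, Submodule.coe_sum, Submodule.coe_sum, map_sum]
      refine Finset.sum_congr rfl fun k _ => ?_
      rw [map_smul, map_smul, Submodule.coe_smul, Submodule.coe_smul, map_smul, hT, h2]
  have kH := key H fun k => ⟨((m : ℂ) - 2 * ((k : ℕ) : ℂ)) • b k, by
    rw [hb.hb, Submodule.coe_smul], by
    rw [hb'.hb, map_smul, hT, Submodule.coe_smul]⟩
  have kF := key F fun k => by
    induction k using Fin.lastCases with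
    | last => exact ⟨0, by rw [hb.fl]; rfl, by rw [hb'.fl, map_zero]; rfl⟩
    | cast k => exact ⟨b k.succ, (hb.fb k).symm, by rw [hb'.fb, hT]⟩
  have kE := key E fun k => by
    induction k using Fin.cases with
    | zero => exact ⟨0, by rw [hb.e0]; rfl, by rw [hb'.e0, map_zero]; rfl⟩
    | succ k => exact ⟨((((k : ℕ) : ℂ) + 1) * ((m : ℂ) - ((k : ℕ) : ℂ))) • b k.castSucc, by
        rw [hb.eb, Submodule.coe_smul], by rw [hb'.eb, map_smul, hT, Submodule.coe_smul]⟩
  have h0 := int0 hD hne T fun x hxK u => by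
    obtain ⟨a, p, q, h1, h2⟩ := hx x hxK
    obtain ⟨wH, h3, h4⟩ := kH u
    obtain ⟨wE, h5, h6⟩ := kE u
    obtain ⟨wF, h7, h8⟩ := kF u
    have h9 : (⟨x u, hD.stab j x hxK u u.2⟩ : W j) = a • wH + p • wE + q • wF := by
      apply Subtype.ext
      change x u = _
      rw [h1 u u.2, Submodule.coe_add, Submodule.coe_add, Submodule.coe_smul, Submodule.coe_smul,
        Submodule.coe_smul, h3, h5, h7]
      rfl
    rw [h9, h2 _ (T u).2, map_add, map_add, map_smul, map_smul, map_smul, Submodule.coe_add,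
      Submodule.coe_add, Submodule.coe_smul, Submodule.coe_smul, Submodule.coe_smul, ← h4, ← h6,
      ← h8]
    rfl
  have h1 := hT 0
  rw [h0, LinearMap.zero_apply] at h1
  exact b'.ne_zero 0 h1.symm

end Pool.Agent.P8H30.SW
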