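import Pool.Agent.P8H30.SW.Core2

set_option autoImplicit false
set_option linter.unusedSectionVars false
set_option linter.unusedVariables false

/-!
# SW: the main theorem
-/

open Module

namespace Pool.Agent.P8H30.SW

open Pool.Agent.N208.LC

variable {V : Type} [AddCommGroup V] [Module ℂ V] [FiniteDimensional ℂ V]
  {ω : V →ₗ[ℂ] V →ₗ[ℂ] ℂ} {n : ℕ} {W : Fin n → Submodule ℂ V}
  {K : Submodule ℂ (Module.End ℂ V)}

/-- the action on a summand with small weights -/
structure L1 (H E F : Module.End ℂ V) (U : Submodule ℂ V) (m : ℕ) (b : Basis (Fin m) ℂ U)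
    (w : Fin m → ℤ) : Prop where
  sm : ∀ k, w k = 0 ∨ w k = 1 ∨ w k = -1
  inj : ∀ k k', w k = w k' → w k ≠ 0 → k = k'
  z : ∀ k, w k = 0 → E (b k : V) = 0 ∧ F (b k : V) = 0
  p : ∀ k, w k = 1 → E (b k : V) = 0 ∧ ∃ k', w k' = -1 ∧ F (b k : V) = b k'
  q : ∀ k, w k = -1 → F (b k : V) = 0 ∧ ∃ k', w k' = 1 ∧ E (b k : V) = b k'

/-- the action on the summand of dimension four -/
structure L4 (H E F : Module.End ℂ V) (U : Submodule ℂ V) (m : ℕ) (b : Basis (Fin m) ℂ U)
    (w : Fin m → ℤ) (q : Fin 4 → Fin m) : Prop where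
  bij : Function.Bijective q
  wt : ∀ k : Fin 4, w (q k) = 3 - 2 * (k : ℕ)
  f0 : F (b (q 0) : V) = b (q 1)
  f1 : F (b (q 1) : V) = b (q 2)
  f2 : F (b (q 2) : V) = b (q 3)
  f3 : F (b (q 3) : V) = 0
  e0 : E (b (q 0) : V) = 0
  e1 : E (b (q 1) : V) = (3 : ℂ) • (b (q 0) : V)
  e2 : E (b (q 2) : V) = (4 : ℂ) • (b (q 1) : V)
  e3 : E (b (q 3) : V) = (3 : ℂ) • (b (q 2) : V)

/-- skew operators supported at one summand -/
theorem exists_ext (hD : Dec V ω K n W) (i : Fin n) {y : Module.End ℂ (W i)}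
    (hy : y ∈ SP (omR ω (W i))) : ∃ x : Module.End ℂ V, Skew ω x ∧
      (∀ u : W i, ((y u : W i) : V) = x u) ∧ (∀ j, i ≠ j → ∀ u ∈ W j, x u = 0) ∧
      ∀ v, x v ∈ W i := by
  obtain ⟨π, h1, h2, h3, -⟩ := exists_pi hD.int
  let P : V →ₗ[ℂ] W i := LinearMap.codRestrict (W i) (π i) (h1 i)
  let x : Module.End ℂ V := (W i).subtype ∘ₗ y ∘ₗ P
  have hP : ∀ u : W i, P u = u := fun u => Subtype.ext (h2 i u u.2)
  have hP0 : ∀ k, i ≠ k → ∀ u ∈ W k, P u = 0 := fun k hk u hu => Subtype.ext (h3 i k hk u hu)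
  have hx1 : ∀ u : W i, ((y u : W i) : V) = x u := by
    intro u
    change _ = ((y (P u) : W i) : V)
    rw [hP]
  have hx0 : ∀ j, i ≠ j → ∀ u ∈ W j, x u = 0 := by
    intro j hj u hu
    change ((y (P u) : W i) : V) = 0
    rw [hP0 j hj u hu, map_zero]
    rfl
  refine ⟨x, ?_, hx1, hx0, fun v => (y (P v)).2⟩
  -- skew
  have h4 : ω.comp x + ω.compl₂ x = 0 := by
    refine ext_W hD.int fun a u hu => ext_W hD.int fun c v hv => ?_
    change ω (x u) v + ω u (x v) = 0
    by_cases ha : i = a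
    · subst ha
      by_cases hc : i = c
      · subst hc
        have h5 := hy ⟨u, hu⟩ ⟨v, hv⟩
        rw [omR_apply, omR_apply, hx1, hx1] at h5
        exact h5
      · rw [hx0 c hc v hv, map_zero, add_zero, ← hx1 ⟨u, hu⟩]
        exact hD.orth i c hc _ (y ⟨u, hu⟩).2 v hv
    · rw [hx0 a ha u hu, map_zero, LinearMap.zero_apply, zero_add]
      by_cases hc : i = c
      · subst hc
        rw [← hx1 ⟨v, hv⟩]
        exact hD.orth a i (Ne.symm ha) u hu _ (y ⟨v, hv⟩).2
      · rw [hx0 c hc v hv, map_zero]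
  intro u v
  exact congrArg (fun B : V →ₗ[ℂ] V →ₗ[ℂ] ℂ => B u v) h4

/-- **The local step.** A principal triple: the whole symplectic algebra of the summand kills the
form. -/
theorem loc_step (hSTD : S_STD) (hRIB : S_RIB) (hLOC : S_LOC) (hD : Dec V ω K n W)
    (hs : ∀ i, Simp (Im K (W i))) {ι : Type} [Fintype ι] [DecidableEq ι]
    {φ : MultilinearMap ℂ (fun _ : ι => V) ℂ}
    (halt : ∀ (v : ι → V) (k l : ι), k ≠ l → v k = v l → φ v = 0)
    (hK : ∀ x ∈ K, Kil x φ)
    (hmax : ∀ x, Skew ω x → (∀ i, ∀ u ∈ W i, x u ∈ W i) → Kil x φ → x ∈ K)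
    {i : Fin n} (hd : finrank ℂ (W i) = 4) {h e f : Module.End ℂ (W i)} (t : Trip h e f)
    (hsp : Im K (W i) = Submodule.span ℂ {h, e, f}) : SP (omR ω (W i)) ≤ Im K (W i) := by
  classical
  obtain ⟨H, hH, E, hE, F, hF, T, hH1, hE1, hF1, hz, hx⟩ := exists_lift hD hRIB hs t hsp
  have hii : Lnk K W i i := fun z _ h => h
  obtain ⟨⟨bi, hbi⟩, -⟩ := std_R (m := 3) hD hSTD hH hE hF T (j := i) (fun x hxK => by
    obtain ⟨a, b, c, h1⟩ := hx x hxK
    exact ⟨a, b, c, h1 i hii⟩) (by rw [hd])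
  have hpair : ∀ j j', j ≠ j' → Lnk K W i j → Lnk K W i j' → ∀ m,
      finrank ℂ (W j) = m + 1 → finrank ℂ (W j') = m + 1 → False := by
    intro j j' hjj hj hj' m hm hm'
    obtain ⟨⟨b, hb⟩, -⟩ := std_R hD hSTD hH hE hF T (j := j) (fun x hxK => by
      obtain ⟨a, b, c, h1⟩ := hx x hxK
      exact ⟨a, b, c, h1 j hj⟩) hm
    obtain ⟨⟨b', hb'⟩, -⟩ := std_R hD hSTD hH hE hF T (j := j') (fun x hxK => by
      obtain ⟨a, b, c, h1⟩ := hx x hxK
      exact ⟨a, b, c, h1 j' hj'⟩) hm'
    exact iso_false hD hjj hb hb' fun x hxK => by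
      obtain ⟨a, b, c, h1⟩ := hx x hxK
      exact ⟨a, b, c, h1 j hj, h1 j' hj'⟩
  -- the data
  have hdata : ∀ j, ∃ (m : ℕ) (b : Basis (Fin m) ℂ (W j)) (w : Fin m → ℤ),
      (∀ k, H (b k : V) = (w k : ℂ) • (b k : V)) ∧ (j ≠ i → L1 H E F (W j) m b w) ∧
      (j = i → ∃ q, L4 H E F (W j) m b w q) ∧
      (j ≠ i → (∃ k, w k ≠ 0) → Lnk K W i j ∧ finrank ℂ (W j) = 1 + 1) := by
    intro j
    by_cases hji : j = i
    · subst hji
      refine ⟨4, bi, fun k => 3 - 2 * (k : ℕ), fun k => ?_, fun h => absurd rfl h, fun _ =>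
        ⟨id, Function.bijective_id, fun k => rfl, ?_, ?_, ?_, ?_, ?_, ?_, ?_, ?_⟩,
        fun h => absurd rfl h⟩
      · have h1 := hbi.hb k
        rw [h1]
        push_cast
        rfl
      · exact hbi.fb 0
      · exact hbi.fb 1
      · exact hbi.fb 2
      · exact hbi.fl
      · exact hbi.e0
      · have h1 := hbi.eb 0
        norm_num at h1
        exact h1
      · have h1 := hbi.eb 1
        norm_num at h1
        exact h1
      · have h1 := hbi.eb 2
        norm_num at h1
        exact h1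
    · by_cases hl : Lnk K W i j
      · have hd2 : finrank ℂ (W j) = 1 + 1 := by
          rcases hD.dim j with h2 | h2
          · exact h2
          · exact absurd (hpair i j (Ne.symm hji) hii hl 3 (by rw [hd]) (by rw [h2])) id
        obtain ⟨⟨b, hb⟩, -⟩ := std_R hD hSTD hH hE hF T (j := j) (fun x hxK => by
          obtain ⟨a, b, c, h1⟩ := hx x hxK
          exact ⟨a, b, c, h1 j hl⟩) hd2
        have e1 : E (b 1 : V) = b 0 := by
          have h1 := hb.eb 0
          norm_num at h1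
          exact h1
        have f0 : F (b 0 : V) = b 1 := hb.fb 0
        refine ⟨2, b, fun k => 1 - 2 * (k : ℕ), fun k => ?_, fun _ => ⟨fun k => ?_,
          fun k k' h _ => ?_, fun k h => ?_, fun k h => ?_, fun k h => ?_⟩,
          fun h => absurd h hji, fun _ _ => ⟨hl, hd2⟩⟩
        · have h1 := hb.hb k
          rw [h1]
          push_cast
          rfl
        · fin_cases k <;> simp
        · apply Fin.ext
          have h' : (1 : ℤ) - 2 * ((k : ℕ) : ℤ) = 1 - 2 * ((k' : ℕ) : ℤ) := h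
          omega
        · exfalso
          have h' : (1 : ℤ) - 2 * ((k : ℕ) : ℤ) = 0 := h
          omega
        · have hk : k = 0 := by
            apply Fin.ext
            have h' : (1 : ℤ) - 2 * ((k : ℕ) : ℤ) = 1 := h
            change (k : ℕ) = 0
            omega
          subst hk
          exact ⟨hb.e0, 1, by simp, f0⟩
        · have hk : k = 1 := by
            apply Fin.ext
            have h' : (1 : ℤ) - 2 * ((k : ℕ) : ℤ) = -1 := h
            change (k : ℕ) = 1
            omega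
          subst hk
          exact ⟨hb.fl, 0, by simp, e1⟩
      · refine ⟨finrank ℂ (W j), Module.finBasis ℂ (W j), fun _ => 0, fun k => ?_,
          fun _ => ⟨fun k => Or.inl rfl, fun k k' _ h => absurd rfl h, fun k _ => ?_,
          fun k h => ?_, fun k h => ?_⟩, fun h => absurd h hji, fun _ ⟨k, hk⟩ => absurd rfl hk⟩
        · rw [(hz j hl _ (Module.finBasis ℂ (W j) k).2).1]
          simp
        · exact (hz j hl _ (Module.finBasis ℂ (W j) k).2).2
        · exact absurd h (by norm_num)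
        · exact absurd h (by norm_num)
  choose m b w hw hL1 hL4 hlnk using hdata
  obtain ⟨q, hq⟩ := hL4 i rfl
  let B : Basis (Σ j, Fin (m j)) ℂ V := hD.int.collectedBasis b
  have hB : ∀ a, B a = (b a.1 a.2 : V) := fun a => by
    simp only [B]
    rw [hD.int.collectedBasis_coe]
  have hnr : ∀ a : (Σ j, Fin (m j)), a ∉ Set.range (fun k : Fin 4 => (⟨i, q k⟩ : Σ j, Fin (m j))) →
      a.1 ≠ i := by
    rintro ⟨j, k⟩ ha hj
    change j = i at hj
    subst hj
    obtain ⟨k', hk'⟩ := hq.bij.2 k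
    exact ha ⟨k', by simp only [hk']⟩
  have hnr' : ∀ a : (Σ j, Fin (m j)), a.1 ≠ i →
      a ∉ Set.range (fun k : Fin 4 => (⟨i, q k⟩ : Σ j, Fin (m j))) := by
    rintro a ha ⟨k, rfl⟩
    exact ha rfl
  intro y hy
  obtain ⟨x, hx1, hx2, hx3, hx4⟩ := exists_ext hD i hy
  refine ⟨x, hmax x hx1 (fun j u hu => ?_) ?_, hx2⟩
  · by_cases hj : i = j
    · subst hj
      exact hx4 u
    · rw [hx3 j hj u hu]
      exact Submodule.zero_mem _
  refine hLOC V (Σ j, Fin (m j)) ι B (fun a => w a.1 a.2) (fun k => ⟨i, q k⟩) ω H E F φ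
    ?_ hq.wt (fun a => by rw [hB, hw]) ?_ ?_ ?_ ?_ ?_ ?_ ?_ ?_ ?_ ?_ ?_ ?_ ?_ hD.sym.alt
    (hD.skew hH) (hD.skew hF) ?_ halt (hK H hH) (hK E hE) (hK F hF) x ?_ ?_ hx1
  · intro k k' h
    have h1 := eq_of_heq (Sigma.mk.inj h).2
    exact hq.bij.1 h1
  · rw [hB, hB]; exact hq.f0
  · rw [hB, hB]; exact hq.f1
  · rw [hB, hB]; exact hq.f2
  · rw [hB]; exact hq.f3
  · rw [hB]; exact hq.e0
  · rw [hB, hB]; exact hq.e1
  · rw [hB, hB]; exact hq.e2
  · rw [hB, hB]; exact hq.e3
  · intro a ha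
    exact (hL1 a.1 (hnr a ha)).sm a.2
  · rintro ⟨j, k⟩ ⟨j', k'⟩ ha ha' h1 h2
    have hj := hnr _ ha
    have hj' := hnr _ ha'
    change j ≠ i at hj
    change j' ≠ i at hj'
    change w j k = w j' k' at h1
    change w j k ≠ 0 at h2
    have h3 : j = j' := by
      by_contra hne
      have h4 := hlnk j hj ⟨k, h2⟩
      have h5 := hlnk j' hj' ⟨k', by rw [← h1]; exact h2⟩
      exact hpair j j' hne h4.1 h5.1 1 h4.2 h5.2
    subst h3
    rw [(hL1 j hj).inj k k' h1 h2]
  · intro a ha h0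
    rw [hB]
    exact (hL1 a.1 (hnr a ha)).z a.2 h0
  · intro a ha h1
    rw [hB]
    obtain ⟨h2, k', h3, h4⟩ := (hL1 a.1 (hnr a ha)).p a.2 h1
    refine ⟨h2, ?_⟩
    rw [h4]
    exact Submodule.subset_span ⟨⟨a.1, k'⟩, ⟨hnr' _ (hnr a ha), h3⟩, hB _⟩
  · intro a ha h1
    rw [hB]
    obtain ⟨h2, k', h3, h4⟩ := (hL1 a.1 (hnr a ha)).q a.2 h1
    refine ⟨h2, ?_⟩
    rw [h4]
    exact Submodule.subset_span ⟨⟨a.1, k'⟩, ⟨hnr' _ (hnr a ha), h3⟩, hB _⟩
  · -- the form
    intro h0
    rw [hB, hB] at h0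
    have hHs := hD.skew hH
    have h1 : b i (q 0) = 0 := by
      apply (sym_R hD i).nd
      intro v
      have h2 : omR ω (W i) (b i (q 0)) = 0 := (b i).ext fun l => by
        rw [LinearMap.zero_apply, omR_apply]
        obtain ⟨k, rfl⟩ := hq.bij.2 l
        by_cases hk : k = 3
        · subst hk
          exact h0
        · have h3 := hHs (b i (q 0)) (b i (q k))
          rw [hw, hw, map_smul, LinearMap.smul_apply, map_smul, smul_eq_mul, smul_eq_mul,
            hq.wt, hq.wt, ← add_mul] at h3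
          refine (mul_eq_zero.1 h3).resolve_left ?_
          have hk3 : (k : ℕ) ≠ 3 := fun h => hk (Fin.ext h)
          have hk4 := k.2
          have h4 : ((3 - 2 * ((0 : Fin 4) : ℕ) : ℤ) : ℂ) + ((3 - 2 * (k : ℕ) : ℤ) : ℂ) =
              ((6 - 2 * (k : ℕ) : ℤ) : ℂ) := by
            push_cast
            norm_num
            ring
          rw [h4]
          intro h5
          have h6 : (6 - 2 * (k : ℕ) : ℤ) = 0 := by exact_mod_cast h5
          omega
      rw [h2, LinearMap.zero_apply]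
    exact (b i).ne_zero _ h1
  · intro a ha
    rw [hB]
    exact hx3 a.1 (Ne.symm (hnr a ha)) _ (b a.1 a.2).2
  · intro k
    rw [hB]
    have h1 : ∀ u : W i, (u : V) ∈ Submodule.span ℂ (Set.range fun k => B ⟨i, q k⟩) := by
      intro u
      rw [← (b i).sum_repr u, Submodule.coe_sum]
      refine Submodule.sum_mem _ fun l _ => ?_
      rw [Submodule.coe_smul]
      refine Submodule.smul_mem _ _ (Submodule.subset_span ?_)
      obtain ⟨k', hk'⟩ := hq.bij.2 l
      exact ⟨k', by rw [← hk']; exact hB _⟩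
    exact h1 ⟨_, hx4 _⟩

/-- **SW/CORE**, from the packages. -/
theorem core (hD2 : S_D2) (hD4 : S_D4) (hSI : S_SI) (hSI2 : S_SI2) (hSTD : S_STD) (hUNI : S_UNI)
    (hRIB : S_RIB) (hLOC : S_LOC) : S_CORE := by
  intro V _ _ _ ω L n W hL ι _ _ φ halt hφ
  classical
  -- the largest algebra
  let K : Submodule ℂ (Module.End ℂ V) :=
    { carrier := {x | Skew ω x ∧ (∀ i, ∀ u ∈ W i, x u ∈ W i) ∧ Kil x φ}
      zero_mem' := ⟨(SP ω).zero_mem, fun i u _ => by
        rw [LinearMap.zero_apply]; exact Submodule.zero_mem _, (KS φ).zero_mem⟩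
      add_mem' := fun {x y} hx hy => ⟨(SP ω).add_mem hx.1 hy.1, fun i u hu =>
        Submodule.add_mem _ (hx.2.1 i u hu) (hy.2.1 i u hu), (KS φ).add_mem hx.2.2 hy.2.2⟩
      smul_mem' := fun c x hx => ⟨(SP ω).smul_mem c hx.1, fun i u hu =>
        Submodule.smul_mem _ c (hx.2.1 i u hu), (KS φ).smul_mem c hx.2.2⟩ }
  have hLK : L ≤ K := fun x hx => ⟨hL.skew hx, fun i => hL.stab i x hx, hφ x hx⟩
  have hD : Dec V ω K n W :=
    { sym := hL.sym
      lie := by
        rintro x ⟨h1, h2, h3⟩ y ⟨h1', h2', h3'⟩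
        refine ⟨fun u v => ?_, fun i u hu => ?_, kil_bracket h3 h3'⟩
        · rw [LinearMap.sub_apply, LinearMap.sub_apply, Module.End.mul_apply,
            Module.End.mul_apply, Module.End.mul_apply, Module.End.mul_apply, map_sub, map_sub,
            LinearMap.sub_apply]
          linear_combination h1 (y u) v - h1' u (x v) - h1' (x u) v + h1 u (y v)
        · rw [LinearMap.sub_apply, Module.End.mul_apply, Module.End.mul_apply]
          exact Submodule.sub_mem _ (h2 i _ (h2' i u hu)) (h2' i _ (h2 i u hu))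
      skew := fun x hx => hx.1
      int := hL.int
      stab := fun i x hx => hx.2.1 i
      irr := fun i U hU hst => hL.irr i U hU fun x hx => hst x (hLK hx)
      orth := hL.orth
      dist := fun i j hij T hT => hL.dist i j hij T fun x hx => hT x (hLK hx)
      dim := hL.dim }
  have hK : ∀ x ∈ K, Kil x φ := fun x hx => hx.2.2
  have hmax : ∀ x, Skew ω x → (∀ i, ∀ u ∈ W i, x u ∈ W i) → Kil x φ → x ∈ K :=
    fun x h1 h2 h3 => ⟨h1, h2, h3⟩
  clear_value K
  have hs := simp_R hD hD2 hD4 hSI hSI2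
  -- all local algebras are symplectic
  have hA : ∀ i, Im K (W i) = SP (omR ω (W i)) := by
    intro i
    rcases hD.dim i with hd | hd
    · exact (hD2 (W i) (omR ω (W i)) (Im K (W i)) (sym_R hD i) hd (lie_R hD i)
        (skew_R hD i) (irr_R hD i)).1
    · rcases hD4 (W i) (omR ω (W i)) (Im K (W i)) (sym_R hD i) hd (lie_R hD i)
        (skew_R hD i) (irr_R hD i) with h1 | ⟨h, e, f, t, h1⟩
      · exact h1
      · exact le_antisymm (skew_R hD i)
          (loc_step hSTD hRIB hLOC hD hs halt hK hmax hd t h1)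
  -- different summands are not linked
  have hB2 : ∀ i j, i ≠ j → finrank ℂ (W i) = 2 → ¬ Lnk K W i j := by
    intro i j hij hd hl
    obtain ⟨-, h, e, f, t, hsp⟩ := hD2 (W i) (omR ω (W i)) (Im K (W i)) (sym_R hD i) hd
      (lie_R hD i) (skew_R hD i) (irr_R hD i)
    obtain ⟨H, hH, E, hE, F, hF, T, -, -, -, hz, hx⟩ := exists_lift hD hRIB hs t hsp
    have hii : Lnk K W i i := fun z _ h => h
    rcases hD.dim j with hdj | hdj
    · obtain ⟨⟨b, hb⟩, -⟩ := std_R hD hSTD hH hE hF T (j := i) (m := 1) (fun x hxK => by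
        obtain ⟨a, b, c, h1⟩ := hx x hxK
        exact ⟨a, b, c, h1 i hii⟩) (by rw [hd])
      obtain ⟨⟨b', hb'⟩, -⟩ := std_R hD hSTD hH hE hF T (j := j) (m := 1) (fun x hxK => by
        obtain ⟨a, b, c, h1⟩ := hx x hxK
        exact ⟨a, b, c, h1 j hl⟩) (by rw [hdj])
      exact iso_false hD hij hb hb' fun x hxK => by
        obtain ⟨a, b, c, h1⟩ := hx x hxK
        exact ⟨a, b, c, h1 i hii, h1 j hl⟩
    · obtain ⟨-, h', e', f', t', hs'⟩ := std_R hD hSTD hH hE hF T (j := j) (m := 3)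
        (fun x hxK => by
        obtain ⟨a, b, c, h1⟩ := hx x hxK
        exact ⟨a, b, c, h1 j hl⟩) (by rw [hdj])
      have hI := irr_R hD j
      rw [hs'] at hI
      exact sp_ne hSTD (sym_R hD j) hdj t' hI (by rw [← hA j, hs'])
  have hB : ∀ i j, i ≠ j → ¬ Lnk K W i j := by
    intro i j hij hl
    rcases hD.dim i with hd | hd
    · exact hB2 i j hij hd hl
    · rcases hD.dim j with hdj | hdj
      · exact hB2 j i (Ne.symm hij) hdj (lnk_symm hD hs hl)
      · -- both of dimension four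
        let R : Submodule ℂ (Module.End ℂ (W i) × Module.End ℂ (W j)) :=
          { carrier := {p | ∃ x ∈ K, (∀ u : W i, ((p.1 u : W i) : V) = x u) ∧
              ∀ u : W j, ((p.2 u : W j) : V) = x u}
            zero_mem' := ⟨0, K.zero_mem, fun u => by simp, fun u => by simp⟩
            add_mem' := by
              rintro p p' ⟨x, hx, h1, h2⟩ ⟨x', hx', h1', h2'⟩
              refine ⟨x + x', K.add_mem hx hx', fun u => ?_, fun u => ?_⟩
              · rw [Prod.fst_add, LinearMap.add_apply, LinearMap.add_apply, Submodule.coe_add,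
                  h1, h1']
              · rw [Prod.snd_add, LinearMap.add_apply, LinearMap.add_apply, Submodule.coe_add,
                  h2, h2']
            smul_mem' := by
              rintro c p ⟨x, hx, h1, h2⟩
              refine ⟨c • x, K.smul_mem c hx, fun u => ?_, fun u => ?_⟩
              · rw [Prod.smul_fst, LinearMap.smul_apply, LinearMap.smul_apply,
                  Submodule.coe_smul, h1]
              · rw [Prod.smul_snd, LinearMap.smul_apply, LinearMap.smul_apply,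
                  Submodule.coe_smul, h2] }
        have hmem : ∀ p : Module.End ℂ (W i) × Module.End ℂ (W j), p ∈ R ↔ ∃ x ∈ K,
            (∀ u : W i, ((p.1 u : W i) : V) = x u) ∧ ∀ u : W j, ((p.2 u : W j) : V) = x u :=
          fun p => Iff.rfl
        obtain ⟨T, hT0, hT⟩ := hUNI (W i) (W j) (omR ω (W i)) (omR ω (W j)) (sym_R hD i)
          (sym_R hD j) hd hdj R (by
            rintro p ⟨x, hx, h1, h2⟩ p' ⟨x', hx', h1', h2'⟩
            refine ⟨x * x' - x' * x, hD.lie _ hx _ hx', fun u => ?_, fun u => ?_⟩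
            · rw [LinearMap.sub_apply, LinearMap.sub_apply, Submodule.coe_sub,
                Module.End.mul_apply, Module.End.mul_apply, Module.End.mul_apply,
                Module.End.mul_apply, h1, h1', h1', h1]
            · rw [LinearMap.sub_apply, LinearMap.sub_apply, Submodule.coe_sub,
                Module.End.mul_apply, Module.End.mul_apply, Module.End.mul_apply,
                Module.End.mul_apply, h2, h2', h2', h2]) (by
            rintro p ⟨x, hx, h1, h2⟩
            exact ⟨skew_R hD i ⟨x, hx, h1⟩, skew_R hD j ⟨x, hx, h2⟩⟩) (by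
            intro y hy
            have h1 : y ∈ Im K (W i) := by rw [hA i]; exact hy
            obtain ⟨x, hx, h2⟩ := h1
            exact ⟨x.restrict (hD.stab j x hx), x, hx, h2, fun u => rfl⟩) (by
            intro y hy
            have h1 : y ∈ Im K (W j) := by rw [hA j]; exact hy
            obtain ⟨x, hx, h2⟩ := h1
            exact ⟨x.restrict (hD.stab i x hx), x, hx, fun u => rfl, h2⟩) (by
            rintro y ⟨x, hx, h1, h2⟩
            refine LinearMap.ext fun u => Subtype.ext ?_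
            rw [h1]
            exact hl x hx (fun v hv => (h2 ⟨v, hv⟩).symm) u u.2) (by
            rintro y ⟨x, hx, h1, h2⟩
            refine LinearMap.ext fun u => Subtype.ext ?_
            rw [h2]
            exact lnk_symm hD hs hl x hx (fun v hv => (h1 ⟨v, hv⟩).symm) u u.2)
        apply hT0
        refine int0 hD hij T fun x hx u => ?_
        have h1 := hT (x.restrict (hD.stab i x hx), x.restrict (hD.stab j x hx))
          ⟨x, hx, fun u => rfl, fun u => rfl⟩
        have h2 := congrArg (fun F : W i →ₗ[ℂ] W j => ((F u : W j) : V)) h1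
        exact h2
  -- conclusion
  intro Y hY hYW
  obtain ⟨π, h1, h2, h3, h4⟩ := exists_pi hD.int
  have hparts : ∀ i, Y * π i ∈ K := by
    intro i
    have hYi : Y.restrict (hYW i) ∈ Im K (W i) := by
      rw [hA i]
      intro u v
      exact hY u v
    obtain ⟨x, hx, h5⟩ := hYi
    obtain ⟨y, hy, h6, h7⟩ := rib_R hD hRIB hs i x hx
    have h8 : Y * π i = y := by
      refine ext_W hD.int fun j u hu => ?_
      rw [Module.End.mul_apply]
      by_cases hj : i = j
      · subst hj
        rw [h2 i u hu, h6 u hu]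
        exact h5 ⟨u, hu⟩
      · rw [h3 i j hj u hu, map_zero, h7 j (hB i j hj) u hu]
    rw [h8]
    exact hy
  have h9 : Y = ∑ i, Y * π i := by
    rw [← Finset.mul_sum, h4, mul_one]
  rw [h9]
  exact hK _ (K.sum_mem fun i _ => hparts i)

end Pool.Agent.P8H30.SW
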