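import Pool.Agent.P8H30.SW.AV
import Pool.Agent.P8H30.SW.Core3
import Pool.Agent.P8H38.SW.D2
import Pool.Agent.P8H38.SW.Si
import Pool.Agent.P8H45.SW.Fft
import Pool.Agent.P8H45.SW.Typ
import Pool.Agent.P8H49.SW.C3
import Pool.Agent.P8H49.SW.Rib
import Pool.Agent.P8H57.SW.C2
import Pool.Agent.P8H57.SW.Loc
import Pool.Agent.P8H76.SW.C1
import Pool.Agent.P8H76.SW.Std
import Pool.Agent.P8H88.SW.Uni4

set_option autoImplicit false
set_option linter.unusedSectionVars false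
set_option linter.unusedVariables false

/-!
# SW: the final theorem
-/

open Module TensorProduct

namespace Pool.Agent.P8H30.SW

open Pool.Agent.Y102 Pool.Agent.W516.DR Pool.Agent.H204R3.GP Pool.Agent.W516.KC
  Pool.Agent.H204R3.SP Pool.Agent.P8H30.FF Pool.Agent.N208.LC

theorem tr_zero {W : Type} [AddCommGroup W] [Module ℂ W] [FiniteDimensional ℂ W]
    {ω : W →ₗ[ℂ] W →ₗ[ℂ] ℂ} (hω : Sym ω) {x : Module.End ℂ W} (hx : Skew ω x) :
    LinearMap.trace ℂ W x = 0 := by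
  -- the isomorphism of `W` with its dual conjugates `x` to minus the transpose
  have hinj : Function.Injective ω := by
    rw [injective_iff_map_eq_zero]
    intro u hu
    exact hω.nd u fun v => by rw [hu, LinearMap.zero_apply]
  let e : W ≃ₗ[ℂ] Module.Dual ℂ W := LinearEquiv.ofInjectiveOfFinrankEq ω hinj
    (Subspace.dual_finrank_eq (K := ℂ) (V := W)).symm
  have he : ∀ u, e u = ω u := fun u => rfl
  have h1 : e.toLinearMap ∘ₗ x ∘ₗ e.symm.toLinearMap = -Module.Dual.transpose (R := ℂ) x := by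
    refine LinearMap.ext fun f => ?_
    obtain ⟨u, rfl⟩ := e.surjective f
    refine LinearMap.ext fun v => ?_
    change e (x (e.symm (e u))) v = -(e u (x v))
    rw [e.symm_apply_apply, he, he]
    have := hx u v
    linear_combination this
  have h2 : LinearMap.trace ℂ _ (e.toLinearMap ∘ₗ x ∘ₗ e.symm.toLinearMap) =
      LinearMap.trace ℂ W x := LinearMap.trace_conj' x e
  rw [h1, map_neg, LinearMap.trace_transpose'] at h2
  have h3 : LinearMap.trace ℂ W x = -LinearMap.trace ℂ W x := h2.symm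
  exact self_eq_neg.1 h3

/-- dimension four -/
theorem d4 : S_D4 := by
  intro W _ _ _ ω L hω hd hL hs hI
  obtain ⟨h, hh, e, he, f, hf, t, hne⟩ := Pool.Agent.P8H38.SW.tri W L hL hI
    (fun x hx => tr_zero hω (hs hx)) (by omega)
  rcases Pool.Agent.P8H45.SW.Typ.typ W ω h e f hω hd t (hs hh) (hs he) (hs hf) hne with
    ⟨b, hb⟩ | ⟨b, hb1, hb2⟩ | ⟨b, hb1, hb2⟩
  · rcases Pool.Agent.P8H49.SW.c3 W ω h e f b L hω hb hL hs hh he hf with h1 | h1
    · exact Or.inl h1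
    · exact Or.inr ⟨h, e, f, t, h1⟩
  · exact Or.inl (Pool.Agent.P8H76.SW.c1 W ω h e f b L hω hb1 hb2 hL hs hI hh he hf)
  · exact Or.inl (Pool.Agent.P8H57.SW.c2 W ω h e f b L hω hb1 hb2 hL hs hI hh he hf)

theorem s_core : S_CORE :=
  core Pool.Agent.P8H38.SW.d2 d4 Pool.Agent.P8H38.SW.si Pool.Agent.P8H38.SW.si2
    Pool.Agent.P8H76.SW.std (Pool.Agent.P8H88.SW.uni Pool.Agent.P8H45.SW.Typ.typ)
    Pool.Agent.P8H49.SW.rib Pool.Agent.P8H57.SW.Loc.loc

variable {g : ℕ} (A : AbVar g)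

/-- **Main theorem.** -/
theorem main (hsym : ∀ P ∈ A.EA, ∀ u v, A.om (P u) v = A.om u (P v))
    (hdim : ∀ χ : A.EA → ℂ, finrank ℂ (JE A χ) ≤ 4) {m : ℕ}
    {φ : MultilinearMap ℚ (fun _ : Fin m × Fin 2 => A.H1) ℚ}
    (hφ : IsDeRhamBettiForm QBar A.dR tau m φ)
    (halt : ∀ v : Fin m × Fin 2 → A.H1, ∀ i j, i ≠ j → v i = v j → φ v = 0) :
    φ ∈ Submodule.span ℚ (A.LefProd A.EA m) :=
  main_av A hsym s_core Pool.Agent.P8H45.SW.Fft.fft hdim hφ halt

end Pool.Agent.P8H30.SW
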